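import Mathlib

/-!
# The upper bound: few edges or a long tight path, and large independent sets
-/

set_option autoImplicit false

namespace Pool.Agent.Lib.MP_8cf036_co_h19

section peel

variable {V : Type*} [DecidableEq V]

open Finset

/-- If there are more than `(s-1)` times as many edges as shadow sets, then there is a nonempty
subfamily all of whose shadow sets have degree at least `s`. -/
theorem exists_dense (s : ℕ) (hs : 1 ≤ s) : ∀ (N : ℕ) (H : Finset (Finset V)), H.card = N →
    (s - 1) * (shadow H).card < H.card →
    ∃ H' ⊆ H, H'.Nonempty ∧ ∀ Q ∈ shadow H', s ≤ (H'.filter fun e => Q ⊆ e).card := by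
  intro N
  induction N using Nat.strong_induction_on with
  | _ N ih =>
    intro H hN hH
    by_cases hall : ∀ Q ∈ shadow H, s ≤ (H.filter fun e => Q ⊆ e).card
    · exact ⟨H, Subset.rfl, Finset.card_pos.1 (by omega), hall⟩
    · push Not at hall
      obtain ⟨Q, hQ, hdeg⟩ := hall
      have hsplit := Finset.card_filter_add_card_filter_not (s := H) (fun e => Q ⊆ e)
      have hpos : 0 < (H.filter fun e => Q ⊆ e).card := by
        obtain ⟨e, he, hQe, -⟩ := mem_shadow_iff_exists_mem_card_add_one.1 hQ
        exact Finset.card_pos.2 ⟨e, Finset.mem_filter.2 ⟨he, hQe⟩⟩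
      have hsh : shadow (H.filter fun e => ¬ Q ⊆ e) ⊆ (shadow H).erase Q := by
        intro R hR
        rw [Finset.mem_erase]
        refine ⟨?_, shadow_monotone (Finset.filter_subset _ _) hR⟩
        rintro rfl
        obtain ⟨e, he, hQe, -⟩ := mem_shadow_iff_exists_mem_card_add_one.1 hR
        exact (Finset.mem_filter.1 he).2 hQe
      have hsh2 := Finset.card_le_card hsh
      rw [Finset.card_erase_of_mem hQ] at hsh2
      have hQpos : 0 < (shadow H).card := Finset.card_pos.2 ⟨Q, hQ⟩
      obtain ⟨a, ha⟩ : ∃ a, (shadow H).card = a + 1 := ⟨_, (Nat.succ_pred_eq_of_pos hQpos).symm⟩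
      have h1 : (s - 1) * (shadow (H.filter fun e => ¬ Q ⊆ e)).card ≤ (s - 1) * a :=
        Nat.mul_le_mul_left _ (by omega)
      have h2 : (s - 1) * (a + 1) = (s - 1) * a + (s - 1) := by ring
      rw [ha, h2] at hH
      obtain ⟨H', hH', hne, hd⟩ := ih _ (by omega) (H.filter fun e => ¬ Q ⊆ e) rfl (by omega)
      exact ⟨H', hH'.trans (Finset.filter_subset _ _), hne, hd⟩

/-- Building a tight path greedily. -/
theorem exists_path {k s : ℕ} (hk : 1 ≤ k) {H : Finset (Finset V)} (hH : ∀ e ∈ H, e.card = k)
    (hne : H.Nonempty) (hd : ∀ Q ∈ shadow H, s ≤ (H.filter fun e => Q ⊆ e).card) :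
    ∀ r : ℕ, 1 ≤ r → r ≤ s → ∃ v : ℕ → V,
      (∀ i < r + k - 1, ∀ j < r + k - 1, v i = v j → i = j) ∧
      ∀ i < r, (Finset.range k).image (fun j => v (i + j)) ∈ H := by
  intro r
  induction r with
  | zero => intro h; omega
  | succ r ih =>
    intro _ hr
    rcases Nat.eq_zero_or_pos r with rfl | hpos
    · obtain ⟨e, he⟩ := hne
      have hcard := hH e he
      obtain ⟨x0, hx0⟩ : e.Nonempty := Finset.card_pos.1 (by omega)
      let g : Fin k ≃ e := (Fintype.equivFinOfCardEq (by simpa using hcard)).symm
      let v : ℕ → V := fun i => if h : i < k then (g ⟨i, h⟩ : V) else x0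
      have hv : ∀ i (h : i < k), v i = g ⟨i, h⟩ := fun i h => by simp only [v, dif_pos h]
      refine ⟨v, ?_, ?_⟩
      · intro i hi j hj hij
        rw [hv i (by omega), hv j (by omega)] at hij
        have := g.injective (Subtype.ext hij)
        exact congrArg Fin.val this
      · intro i hi
        have hi0 : i = 0 := by omega
        subst hi0
        have : (Finset.range k).image (fun j => v (0 + j)) = e := by
          ext x
          simp only [Finset.mem_image, Finset.mem_range, zero_add]
          constructor
          · rintro ⟨j, hj, rfl⟩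
            rw [hv j hj]
            exact (g ⟨j, hj⟩).2
          · intro hx
            refine ⟨(g.symm ⟨x, hx⟩).val, (g.symm ⟨x, hx⟩).isLt, ?_⟩
            rw [hv _ (g.symm ⟨x, hx⟩).isLt]
            simp
        rw [this]
        exact he
    · obtain ⟨v, hv, hw⟩ := ih hpos (by omega)
      set Q := (Finset.range (k - 1)).image (fun j => v (r + j)) with hQ
      -- `Q` is in the shadow
      have hlast := hw (r - 1) (by omega)
      have hins : (Finset.range k).image (fun j => v (r - 1 + j)) = insert (v (r - 1)) Q := by
        ext x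
        simp only [hQ, Finset.mem_image, Finset.mem_range, Finset.mem_insert]
        constructor
        · rintro ⟨j, hj, rfl⟩
          rcases Nat.eq_zero_or_pos j with rfl | hj0
          · left; rfl
          · right
            exact ⟨j - 1, by omega, congrArg v (by omega)⟩
        · rintro (rfl | ⟨j, hj, rfl⟩)
          · exact ⟨0, by omega, rfl⟩
          · exact ⟨j + 1, by omega, congrArg v (by omega)⟩
      have hnot : ∀ i < r, v i ∉ Q := by
        intro i hi hmem
        rw [hQ, Finset.mem_image] at hmem
        obtain ⟨j, hj, hij⟩ := hmem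
        rw [Finset.mem_range] at hj
        have := hv _ (by omega) _ (by omega) hij
        omega
      have hQs : Q ∈ shadow H := by
        rw [mem_shadow_iff_insert_mem]
        exact ⟨v (r - 1), hnot _ (by omega), by rw [← hins]; exact hlast⟩
      have hQc : Q.card = k - 1 := by
        have h1 := hH _ hlast
        rw [hins, Finset.card_insert_of_notMem (hnot _ (by omega))] at h1
        omega
      have hdeg := hd Q hQs
      obtain ⟨e, he, heq⟩ : ∃ e ∈ H.filter (fun e => Q ⊆ e),
          e ∉ ((Finset.range r).image v).image (fun w => insert w Q) := by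
        by_contra hcon
        push Not at hcon
        have h1 := Finset.card_le_card hcon
        have h2 := (Finset.card_image_le (s := (Finset.range r).image v)
          (f := fun w => insert w Q)).trans Finset.card_image_le
        rw [Finset.card_range] at h2
        omega
      rw [Finset.mem_filter] at he
      have hsd : (e \ Q).card = 1 := by
        rw [Finset.card_sdiff_of_subset he.2, hH e he.1, hQc]
        omega
      obtain ⟨w, hw1⟩ := Finset.card_eq_one.1 hsd
      have heQ : e = insert w Q := by
        rw [← Finset.sdiff_union_of_subset he.2, hw1]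
        rfl
      have hwQ : w ∉ Q := by
        have : w ∈ e \ Q := by rw [hw1]; exact Finset.mem_singleton_self w
        exact (Finset.mem_sdiff.1 this).2
      have hwr : ∀ i < r, v i ≠ w := by
        intro i hi hvw
        apply heq
        rw [Finset.mem_image]
        exact ⟨w, Finset.mem_image.2 ⟨i, Finset.mem_range.2 hi, hvw⟩, heQ.symm⟩
      have hwall : ∀ i < r + k - 1, v i ≠ w := by
        intro i hi
        by_cases hir : i < r
        · exact hwr i hir
        · intro hvw
          apply hwQ
          rw [← hvw, hQ, Finset.mem_image]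
          exact ⟨i - r, Finset.mem_range.2 (by omega), congrArg v (by omega)⟩
      let v' : ℕ → V := fun i => if i < r + k - 1 then v i else w
      have hv1 : ∀ i < r + k - 1, v' i = v i := fun i hi => by simp only [v', if_pos hi]
      have hv2 : v' (r + k - 1) = w := by simp only [v', lt_irrefl, if_false]
      refine ⟨v', ?_, ?_⟩
      · intro i hi j hj hij
        by_cases hi1 : i < r + k - 1
        · by_cases hj1 : j < r + k - 1
          · rw [hv1 i hi1, hv1 j hj1] at hij
            exact hv i hi1 j hj1 hij
          · have : j = r + k - 1 := by omega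
            rw [hv1 i hi1, this, hv2] at hij
            exact absurd hij (hwall i hi1)
        · have hi2 : i = r + k - 1 := by omega
          by_cases hj1 : j < r + k - 1
          · rw [hv1 j hj1, hi2, hv2] at hij
            exact absurd hij.symm (hwall j hj1)
          · omega
      · intro i hi
        by_cases hir : i < r
        · have : (Finset.range k).image (fun j => v' (i + j)) =
              (Finset.range k).image (fun j => v (i + j)) := by
            apply Finset.image_congr
            intro j hj
            have hj' : j < k := by simpa using hj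
            exact hv1 _ (by omega)
          rw [this]
          exact hw i hir
        · have hi2 : i = r := by omega
          subst hi2
          have : (Finset.range k).image (fun j => v' (i + j)) = insert w Q := by
            ext x
            simp only [hQ, Finset.mem_image, Finset.mem_range, Finset.mem_insert]
            constructor
            · rintro ⟨j, hj, rfl⟩
              by_cases hj1 : j = k - 1
              · left
                have : i + j = i + k - 1 := by omega
                rw [this, hv2]
              · right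
                exact ⟨j, by omega, (hv1 _ (by omega)).symm⟩
            · rintro (rfl | ⟨j, hj, rfl⟩)
              · refine ⟨k - 1, by omega, ?_⟩
                have : i + (k - 1) = i + k - 1 := by omega
                rw [this, hv2]
              · exact ⟨j, by omega, hv1 _ (by omega)⟩
          rw [this, ← heQ]
          exact he.1

end peel

section independent

open Finset

/-- The number of maps that are constant equal to `a` on `e`. -/
theorem card_const_on {N q : ℕ} (e : Finset (Fin N)) (a : Fin q) :
    ((Finset.univ : Finset (Fin N → Fin q)).filter fun χ => ∀ x ∈ e, χ x = a).card =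
      q ^ (N - e.card) := by
  have h1 : ((Finset.univ : Finset (Fin N → Fin q)).filter fun χ => ∀ x ∈ e, χ x = a) =
      Fintype.piFinset (fun x => if x ∈ e then {a} else Finset.univ) := by
    ext χ
    simp only [Finset.mem_filter, Finset.mem_univ, true_and, Fintype.mem_piFinset]
    constructor
    · intro h x
      by_cases hx : x ∈ e
      · rw [if_pos hx, Finset.mem_singleton]; exact h x hx
      · rw [if_neg hx]; exact Finset.mem_univ _
    · intro h x hx
      have := h x
      rw [if_pos hx, Finset.mem_singleton] at this
      exact this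
  rw [h1, Fintype.card_piFinset]
  have h2 : ∀ x : Fin N, (if x ∈ e then ({a} : Finset (Fin q)) else Finset.univ).card =
      if x ∈ e then 1 else q := by
    intro x
    by_cases hx : x ∈ e
    · rw [if_pos hx, if_pos hx, Finset.card_singleton]
    · rw [if_neg hx, if_neg hx, Finset.card_univ, Fintype.card_fin]
  simp_rw [h2]
  rw [Finset.prod_ite, Finset.prod_const_one, one_mul, Finset.prod_const]
  congr 1
  have h3 := Finset.card_filter_add_card_filter_not (s := (Finset.univ : Finset (Fin N)))
    (fun x => x ∈ e)
  have h4 : (Finset.univ.filter fun x => x ∈ e) = e := by ext x; simp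
  rw [h4, Finset.card_univ, Fintype.card_fin] at h3
  omega

/-- Averaging: some class of some map has many more points than edges. -/
theorem exists_class {N q k : ℕ} (H : Finset (Finset (Fin N))) (hH : ∀ e ∈ H, e.card = k)
    (hq : 1 ≤ q) {t : ℕ} (ht : H.card * q ^ (N - k) + t * q ^ N ≤ N * q ^ (N - 1))
    (hN : 1 ≤ N) :
    ∃ U : Finset (Fin N), (H.filter fun e => e ⊆ U).card + t ≤ U.card := by
  classical
  by_contra hcon
  push Not at hcon
  have hq1 : q ^ N = q * q ^ (N - 1) := by
    rw [← pow_succ']; congr 1; omega
  -- count points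
  have hpts : ∑ χ : Fin N → Fin q, ∑ a : Fin q, ((Finset.univ.filter fun x => χ x = a).card) =
      N * q ^ N := by
    have : ∀ χ : Fin N → Fin q, ∑ a : Fin q, ((Finset.univ.filter fun x => χ x = a).card) = N := by
      intro χ
      rw [← Finset.card_eq_sum_card_fiberwise (f := χ) (s := Finset.univ) (t := Finset.univ)
        (fun _ _ => Finset.mem_univ _), Finset.card_univ, Fintype.card_fin]
    simp_rw [this]
    rw [Finset.sum_const, Finset.card_univ, smul_eq_mul, Fintype.card_fun, Fintype.card_fin,
      Fintype.card_fin]
    ring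
  have hedg : ∑ χ : Fin N → Fin q, ∑ a : Fin q,
      (H.filter fun e => e ⊆ Finset.univ.filter fun x => χ x = a).card =
      H.card * (q * q ^ (N - k)) := by
    rw [Finset.sum_comm]
    have : ∀ a : Fin q, ∑ χ : Fin N → Fin q,
        (H.filter fun e => e ⊆ Finset.univ.filter fun x => χ x = a).card =
        H.card * q ^ (N - k) := by
      intro a
      simp_rw [Finset.card_filter]
      rw [Finset.sum_comm]
      have h5 : ∀ e ∈ H, (∑ χ : Fin N → Fin q,
          if e ⊆ Finset.univ.filter (fun x => χ x = a) then 1 else 0) = q ^ (N - k) := by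
        intro e he
        rw [← Finset.card_filter, ← hH e he, ← card_const_on e a]
        congr 1
        ext χ
        simp only [Finset.mem_filter, Finset.mem_univ, true_and]
        constructor
        · intro h x hx
          simpa using h hx
        · intro h x hx
          simpa using h x hx
      rw [Finset.sum_congr rfl h5, Finset.sum_const, smul_eq_mul]
    simp_rw [this]
    rw [Finset.sum_const, Finset.card_univ, Fintype.card_fin, smul_eq_mul]
    ring
  -- compare
  have hlt : ∑ χ : Fin N → Fin q, ∑ a : Fin q, ((Finset.univ.filter fun x => χ x = a).card) <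
      ∑ χ : Fin N → Fin q, ∑ a : Fin q,
        ((H.filter fun e => e ⊆ Finset.univ.filter fun x => χ x = a).card + t) := by
    have : Nonempty (Fin q) := ⟨⟨0, hq⟩⟩
    apply Finset.sum_lt_sum_of_nonempty Finset.univ_nonempty
    intro χ _
    apply Finset.sum_lt_sum_of_nonempty Finset.univ_nonempty
    intro a _
    exact hcon _
  simp_rw [Finset.sum_add_distrib] at hlt
  rw [hpts, hedg] at hlt
  simp only [Finset.sum_const, Finset.card_univ, smul_eq_mul, Fintype.card_fun,
    Fintype.card_fin] at hlt
  have h6 : H.card * (q * q ^ (N - k)) + q ^ N * (q * t) ≤ N * q ^ N := by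
    calc H.card * (q * q ^ (N - k)) + q ^ N * (q * t)
        = q * (H.card * q ^ (N - k) + t * q ^ N) := by ring
      _ ≤ q * (N * q ^ (N - 1)) := Nat.mul_le_mul_left _ ht
      _ = N * (q * q ^ (N - 1)) := by ring
      _ = N * q ^ N := by rw [← hq1]
  omega

/-- Deleting a vertex of each edge. -/
theorem exists_indep {N k t : ℕ} (hk : 1 ≤ k) (H : Finset (Finset (Fin N)))
    (hH : ∀ e ∈ H, e.card = k) (U : Finset (Fin N))
    (hU : (H.filter fun e => e ⊆ U).card + t ≤ U.card) :
    ∃ S : Finset (Fin N), S.card = t ∧ ∀ e ⊆ S, e ∉ H := by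
  classical
  have hne : ∀ e ∈ H, e.Nonempty := fun e he => Finset.card_pos.1 (by rw [hH e he]; omega)
  let pick : Finset (Fin N) → Option (Fin N) := fun e => if h : e.Nonempty then some h.choose else none
  let D : Finset (Fin N) := (H.filter fun e => e ⊆ U).biUnion fun e => (pick e).toFinset
  have hD : D.card ≤ (H.filter fun e => e ⊆ U).card := by
    refine (Finset.card_biUnion_le_card_mul _ _ 1 ?_).trans (by rw [mul_one])
    intro e _
    simp only [pick]
    split_ifs <;> simp
  have hc : t ≤ (U \ D).card := by
    have := Finset.le_card_sdiff D U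
    omega
  obtain ⟨S, hS, hSc⟩ := Finset.exists_subset_card_eq hc
  refine ⟨S, hSc, ?_⟩
  intro e he heH
  have heU : e ⊆ U := he.trans (hS.trans Finset.sdiff_subset)
  have h1 := hne e heH
  have h2 : h1.choose ∈ D := by
    rw [Finset.mem_biUnion]
    refine ⟨e, Finset.mem_filter.2 ⟨heH, heU⟩, ?_⟩
    simp only [pick, dif_pos h1]
    simp
  exact (Finset.mem_sdiff.1 (hS (he h1.choose_spec))).2 h2

end independent

theorem upper {k s : ℕ} (hk : 2 ≤ k) (hs : 1 ≤ s) (t n : ℕ) (ht : 1 ≤ t)
    (hn : ((s * 2 ^ k : ℕ) : ℝ) * (t : ℝ) ^ (k - 1) ≤ (n : ℝ)) (H : Set (Finset (Fin n))) :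
    (∃ v : Fin (s + k - 1) → Fin n, Function.Injective v ∧
      ∀ i : Fin s,
        (Finset.univ.filter (fun j : Fin (s + k - 1) =>
            i.val ≤ j.val ∧ j.val < i.val + k)).image v ∈ H) ∨
    (∃ S : Finset (Fin n), S.card = t ∧
      ∀ e : Finset (Fin n), e ⊆ S → e.card = k → e ∉ H) := by
  classical
  obtain ⟨q, hq⟩ : ∃ q, q = s * 2 ^ (k - 1) * t ^ (k - 2) := ⟨_, rfl⟩
  obtain ⟨N, hN⟩ : ∃ N, N = 2 * t * q := ⟨_, rfl⟩
  have hq0 : 1 ≤ q := by rw [hq]; exact Nat.one_le_iff_ne_zero.2 (by positivity)
  have hN0 : 1 ≤ N := by rw [hN]; exact Nat.one_le_iff_ne_zero.2 (by positivity)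
  have hk1 : 2 ^ k = 2 * 2 ^ (k - 1) := by rw [← pow_succ']; congr 1; omega
  have hk2 : t ^ (k - 1) = t * t ^ (k - 2) := by rw [← pow_succ']; congr 1; omega
  have hNn : N ≤ n := by
    have h1 : N = s * 2 ^ k * t ^ (k - 1) := by rw [hN, hq, hk1, hk2]; ring
    rw [h1]
    exact_mod_cast hn
  let ι : Fin N ↪ Fin n := (Fin.castLEEmb hNn)
  let H0 : Finset (Finset (Fin N)) := Finset.univ.filter fun e => e.card = k ∧ e.map ι ∈ H
  have hH0 : ∀ e ∈ H0, e.card = k := fun e he => (Finset.mem_filter.1 he).2.1
  by_cases hmany : (s - 1) * (Finset.shadow H0).card < H0.card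
  · left
    obtain ⟨H', hH', hne, hd⟩ := exists_dense s hs _ H0 rfl hmany
    obtain ⟨v, hv, hw⟩ := exists_path (by omega) (fun e he => hH0 e (hH' he)) hne hd s hs le_rfl
    refine ⟨fun j => ι (v j.val), ?_, ?_⟩
    · intro i j hij
      exact Fin.ext (hv _ i.isLt _ j.isLt (ι.injective hij))
    · intro i
      have h1 := hH' (hw i.val i.isLt)
      have h2 := (Finset.mem_filter.1 h1).2.2
      convert h2 using 1
      ext x
      simp only [Finset.mem_image, Finset.mem_filter, Finset.mem_univ, true_and, Finset.mem_map,
        Finset.mem_range]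
      constructor
      · rintro ⟨j, ⟨hj1, hj2⟩, rfl⟩
        exact ⟨v j.val, ⟨j.val - i.val, by omega, congrArg v (by omega)⟩, rfl⟩
      · rintro ⟨_, ⟨j, hj, rfl⟩, rfl⟩
        have := i.isLt
        exact ⟨⟨i.val + j, by omega⟩, ⟨by simp, by simpa using hj⟩, rfl⟩
  · right
    push Not at hmany
    have hsized : ((H0 : Set (Finset (Fin N)))).Sized k := fun e he => hH0 e he
    have hshadow : (Finset.shadow H0).card ≤ N ^ (k - 1) := by
      have h1 := hsized.shadow
      have h2 : Finset.shadow H0 ⊆ Finset.powersetCard (k - 1) Finset.univ := by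
        intro Q hQ
        rw [Finset.mem_powersetCard]
        exact ⟨Finset.subset_univ _, h1 hQ⟩
      have h3 := Finset.card_le_card h2
      rw [Finset.card_powersetCard, Finset.card_univ, Fintype.card_fin] at h3
      exact h3.trans (Nat.choose_le_pow _ _)
    have hH0c : H0.card ≤ s * N ^ (k - 1) :=
      hmany.trans (Nat.mul_le_mul (by omega) hshadow)
    -- the number of vertices is at least `k`, or there are no edges at all
    have hkey : H0.card ≤ t * q ^ k := by
      refine hH0c.trans ?_
      have hqk : q ^ k = q * q ^ (k - 1) := by rw [← pow_succ']; congr 1; omega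
      have h2k : (2 : ℕ) ^ (k - 1) * t ^ (k - 1) * s = t * q := by
        rw [hq, hk2]; ring
      calc s * N ^ (k - 1) = s * (2 ^ (k - 1) * t ^ (k - 1) * q ^ (k - 1)) := by
            rw [hN, mul_pow, mul_pow]
        _ = (2 ^ (k - 1) * t ^ (k - 1) * s) * q ^ (k - 1) := by ring
        _ = t * (q * q ^ (k - 1)) := by rw [h2k]; ring
        _ ≤ t * q ^ k := by rw [hqk]
    have hkN : k ≤ N := by
      have h1 : k < 2 ^ k := Nat.lt_two_pow_self
      have h2 : N = s * 2 ^ k * t ^ (k - 1) := by rw [hN, hq, hk1, hk2]; ring
      rw [h2]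
      have h3 : 1 ≤ t ^ (k - 1) := Nat.one_le_pow _ _ ht
      calc k ≤ 2 ^ k := h1.le
        _ ≤ s * 2 ^ k := Nat.le_mul_of_pos_left _ hs
        _ ≤ s * 2 ^ k * t ^ (k - 1) := Nat.le_mul_of_pos_right _ h3
    have hineq : H0.card * q ^ (N - k) + t * q ^ N ≤ N * q ^ (N - 1) := by
      have h1 : q ^ N = q ^ k * q ^ (N - k) := by rw [← pow_add]; congr 1; omega
      have h2 : q ^ N = q * q ^ (N - 1) := by rw [← pow_succ']; congr 1; omega
      calc H0.card * q ^ (N - k) + t * q ^ N ≤ t * q ^ k * q ^ (N - k) + t * q ^ N :=
            Nat.add_le_add_right (Nat.mul_le_mul_right _ hkey) _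
        _ = 2 * t * q ^ N := by rw [h1]; ring
        _ = 2 * t * (q * q ^ (N - 1)) := by rw [h2]
        _ = N * q ^ (N - 1) := by rw [hN]; ring
        _ ≤ N * q ^ (N - 1) := le_rfl
    obtain ⟨U, hU⟩ := exists_class H0 hH0 hq0 hineq hN0
    obtain ⟨S, hS, hind⟩ := exists_indep (by omega) H0 hH0 U hU
    refine ⟨S.map ι, by rw [Finset.card_map, hS], ?_⟩
    intro e he hek heH
    obtain ⟨e0, he0, rfl⟩ := Finset.subset_map_iff.1 he
    rw [Finset.card_map] at hek
    exact hind e0 he0 (Finset.mem_filter.2 ⟨Finset.mem_univ _, hek, heH⟩)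

end Pool.Agent.Lib.MP_8cf036_co_h19
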