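import Pool.Agent.Lib.MP_8cf036_co_h19.Lower
import Pool.Agent.Lib.MP_8cf036_co_h19.Upper

/-!
# Tight paths versus cliques: the order of magnitude for uniformity four and five

For `k = 4` and `k = 5` and every `s ≥ k + 1` the Ramsey number of the `k`-uniform tight path with
`s` edges versus the `k`-uniform clique on `t` vertices has order of magnitude `t ^ (k - 1)`.
The statement has the same form as the frozen statement of the problem.
-/

set_option autoImplicit false

namespace Pool.Agent.Lib.MP_8cf036_co_h19.FourFive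

open Pool.Agent.Lib.MP_8cf036_co_h19

/-- For `k = 4` and `k = 5` and every `s ≥ k + 1`, the Ramsey number of the `k`-uniform tight path
with `s` edges versus the `k`-uniform clique `K_t` lies between `c * t ^ (k - 1)` and
`C * t ^ (k - 1)` for all large `t`. -/
theorem result :
    ∀ k : ℕ, k = 4 ∨ k = 5 → ∀ s : ℕ, k + 1 ≤ s →
      ∃ c C : ℝ, 0 < c ∧ 0 < C ∧ ∃ T : ℕ, ∀ t : ℕ, T ≤ t →
        (∀ n : ℕ, C * (t : ℝ) ^ (k - 1) ≤ (n : ℝ) →
          ∀ H : Set (Finset (Fin n)),
            (∃ v : Fin (s + k - 1) → Fin n, Function.Injective v ∧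
              ∀ i : Fin s,
                (Finset.univ.filter (fun j : Fin (s + k - 1) =>
                    i.val ≤ j.val ∧ j.val < i.val + k)).image v ∈ H) ∨
            (∃ S : Finset (Fin n), S.card = t ∧
              ∀ e : Finset (Fin n), e ⊆ S → e.card = k → e ∉ H)) ∧
        (∀ n : ℕ, (n : ℝ) ≤ c * (t : ℝ) ^ (k - 1) →
          ¬ (∀ H : Set (Finset (Fin n)),
            (∃ v : Fin (s + k - 1) → Fin n, Function.Injective v ∧
              ∀ i : Fin s,
                (Finset.univ.filter (fun j : Fin (s + k - 1) =>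
                    i.val ≤ j.val ∧ j.val < i.val + k)).image v ∈ H) ∨
            (∃ S : Finset (Fin n), S.card = t ∧
              ∀ e : Finset (Fin n), e ⊆ S → e.card = k → e ∉ H))) := by
  intro k hk s hs
  obtain ⟨A, hA, hcon⟩ : ∃ A, 1 ≤ A ∧ Construction k A := by
    rcases hk with rfl | rfl
    · exact ⟨31, by norm_num, construction4⟩
    · exact ⟨36166, by norm_num, construction5⟩
  have hk2 : 2 ≤ k := by omega
  obtain ⟨c, hc, T, hT⟩ := lower hk2 hA hcon hs
  refine ⟨c, ((s * 2 ^ k : ℕ) : ℝ), hc, ?_, max T 1, ?_⟩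
  · have : 0 < s * 2 ^ k := Nat.mul_pos (by omega) (by positivity)
    exact_mod_cast this
  · intro t ht
    refine ⟨fun n hn H => upper hk2 (by omega) t n ((le_max_right T 1).trans ht) hn H, ?_⟩
    exact fun n hn => hT t ((le_max_left T 1).trans ht) n hn

end Pool.Agent.Lib.MP_8cf036_co_h19.FourFive
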