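import Pool.Agent.Lib.MP_8cf036_co_h19.Unav

/-!
# The hypergraphs for uniformity four and five
-/

set_option autoImplicit false

namespace Pool.Agent.Lib.MP_8cf036_co_h19

section general

variable {V : Type*} [DecidableEq V]

/-- A level: a key and a type of edges (with centre). -/
structure Level (V : Type*) where
  /-- the key -/
  key : V → ℕ
  /-- edges with centre -/
  P : Finset V → V → Prop

/-- What we need of a level. -/
structure Level.Valid (k : ℕ) (l : Level V) : Prop where
  centre : ∀ e e' c c', l.P e c → l.P e' c' → k - 1 ≤ (e ∩ e').card → c = c'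
  mem : ∀ e c, l.P e c → c ∈ e ∧ e.card = k
  sep : ∀ e c, l.P e c → 3 ≤ (e.filter fun x => l.key x = l.key c).card

/-- Edges: of the type of the first level, or without coincidences of its key and an edge of a later
level. -/
def edge (F : Finset V → V → Prop) : List (Level V) → Finset V → V → Prop
  | [], e, c => F e c
  | l :: L, e, c => l.P e c ∨ (Set.InjOn l.key e ∧ edge F L e c)

theorem not_injOn_of_sep {k : ℕ} {κ : V → ℕ} {e e' : Finset V} {c : V}
    (h3 : 3 ≤ (e.filter fun x => κ x = κ c).card) (hcard : e.card = k)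
    (hn : k - 1 ≤ (e ∩ e').card) : ¬ Set.InjOn κ e' := by
  intro hI
  have h1 := Finset.card_sdiff_add_card_inter e e'
  have h2 : (e.filter fun x => κ x = κ c).card ≤
      (e \ e').card + ((e.filter fun x => κ x = κ c) ∩ e').card := by
    have h4 : (e.filter fun x => κ x = κ c) ⊆
        (e \ e') ∪ ((e.filter fun x => κ x = κ c) ∩ e') := by
      intro x hx
      rw [Finset.mem_union, Finset.mem_sdiff, Finset.mem_inter]
      by_cases hx' : x ∈ e'
      · exact Or.inr ⟨hx, hx'⟩
      · exact Or.inl ⟨(Finset.mem_filter.1 hx).1, hx'⟩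
    exact (Finset.card_le_card h4).trans (Finset.card_union_le _ _)
  have h5 : 1 < ((e.filter fun x => κ x = κ c) ∩ e').card := by omega
  obtain ⟨x, hx, y, hy, hxy⟩ := Finset.one_lt_card.1 h5
  rw [Finset.mem_inter, Finset.mem_filter] at hx hy
  exact hxy (hI hx.2 hy.2 (hx.1.2.trans hy.1.2.symm))

theorem edge_mem {k : ℕ} {F : Finset V → V → Prop} (hF : ∀ e c, F e c → c ∈ e ∧ e.card = k)
    (L : List (Level V)) (hL : ∀ l ∈ L, l.Valid k) :
    ∀ e c, edge F L e c → c ∈ e ∧ e.card = k := by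
  induction L with
  | nil => exact hF
  | cons l L ih =>
    rintro e c (h | ⟨-, h⟩)
    · exact (hL l (by simp)).mem e c h
    · exact ih (fun l' hl' => hL l' (by simp [hl'])) e c h

theorem edge_centre {k : ℕ} {F : Finset V → V → Prop}
    (hF : ∀ e e' c c', F e c → F e' c' → k - 1 ≤ (e ∩ e').card → c = c')
    (L : List (Level V)) (hL : ∀ l ∈ L, l.Valid k) :
    ∀ e e' c c', edge F L e c → edge F L e' c' → k - 1 ≤ (e ∩ e').card → c = c' := by
  induction L with
  | nil => exact hF
  | cons l L ih =>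
    have hl := hL l (by simp)
    have hL' : ∀ l ∈ L, l.Valid k := fun l' hl' => hL l' (by simp [hl'])
    rintro e e' c c' (h | ⟨hI, h⟩) (h' | ⟨hI', h'⟩) hn
    · exact hl.centre e e' c c' h h' hn
    · exact absurd hI' (not_injOn_of_sep (hl.sep e c h) (hl.mem e c h).2 hn)
    · exact absurd hI (not_injOn_of_sep (hl.sep e' c' h') (hl.mem e' c' h').2
        (by rwa [Finset.inter_comm]))
    · exact ih hL' e e' c c' h h' hn

/-- Every set with property `Q` and more than `A * m` points contains an edge. -/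
def Unav (m : ℕ) (Q : Finset V → Prop) (E : Finset V → V → Prop) (A : ℕ) : Prop :=
  ∀ S, Q S → A * m < S.card → ∃ e ⊆ S, ∃ c, E e c

/-- No coincidences of the given keys. -/
def QL (ks : List (V → ℕ)) (S : Finset V) : Prop := ∀ κ ∈ ks, Set.InjOn κ S

omit [DecidableEq V] in
theorem unav_cons {m a b A : ℕ} {F : Finset V → V → Prop} {l : Level V} {L : List (Level V)}
    {ks : List (V → ℕ)}
    (hstep : ∀ S, QL ks S → (∃ e ⊆ S, ∃ c, l.P e c) ∨
      ∃ S' ⊆ S, Set.InjOn l.key S' ∧ S.card ≤ a * S'.card + b * m)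
    (h : Unav m (QL (l.key :: ks)) (edge F L) A) : Unav m (QL ks) (edge F (l :: L)) (a * A + b) := by
  intro S hQ hS
  rcases hstep S hQ with ⟨e, he, c, hc⟩ | ⟨S', hS', hI, hcard⟩
  · exact ⟨e, he, c, Or.inl hc⟩
  · have hQ' : QL (l.key :: ks) S' := by
      intro κ hκ
      rcases List.mem_cons.1 hκ with rfl | hκ
      · exact hI
      · exact (hQ κ hκ).mono (by exact_mod_cast hS')
    have hlt : A * m < S'.card := by
      by_contra hle
      push Not at hle
      have h1 : a * S'.card ≤ a * (A * m) := Nat.mul_le_mul_left a hle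
      have h2 : (a * A + b) * m = a * (A * m) + b * m := by ring
      omega
    obtain ⟨e, he, c, hc⟩ := h S' hQ' hlt
    exact ⟨e, he.trans hS', c, Or.inr ⟨hI.mono (by exact_mod_cast he), hc⟩⟩

end general

/-- The coordinate functions. -/
def f {d m : ℕ} (i : Fin d) (x : Fin d → Fin m) : ℕ := (x i : ℕ)

/-- The key of a set of coordinates. -/
def key {d m : ℕ} (J : Finset (Fin d)) (x : Fin d → Fin m) : ℕ :=
  Encodable.encode (fun j : Fin d => if j ∈ J then (x j : ℕ) else 0)

theorem key_eq_iff {d m : ℕ} {J : Finset (Fin d)} {x y : Fin d → Fin m} :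
    key J x = key J y ↔ ∀ j ∈ J, x j = y j := by
  unfold key
  rw [Encodable.encode_inj]
  constructor
  · intro h j hj
    have := congrFun h j
    simp only [if_pos hj] at this
    exact Fin.ext this
  · intro h
    funext j
    by_cases hj : j ∈ J
    · simp only [if_pos hj, h j hj]
    · simp only [if_neg hj]

theorem f_lt {d m : ℕ} (i : Fin d) (x : Fin d → Fin m) : f i x < m := (x i).isLt

theorem f_eq_iff {d m : ℕ} {i : Fin d} {x y : Fin d → Fin m} : f i x = f i y ↔ x i = y i :=
  ⟨fun h => Fin.ext h, fun h => by rw [f, f, h]⟩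

/-- The levels for all coordinates but one. -/
def lev1 (k : ℕ) {d m : ℕ} (i : Fin d) : Level (Fin d → Fin m) where
  key := key (Finset.univ.erase i)
  P := C1 k (key (Finset.univ.erase i)) (f i)

theorem inj1 {d m : ℕ} (i : Fin d) (x y : Fin d → Fin m)
    (h : key (Finset.univ.erase i) x = key (Finset.univ.erase i) y) (h' : f i x = f i y) :
    x = y := by
  rw [key_eq_iff] at h
  rw [f_eq_iff] at h'
  funext j
  by_cases hj : j = i
  · rw [hj, h']
  · exact h j (by simp [hj])

theorem lev1_valid {k d m : ℕ} (hk : 4 ≤ k) (i : Fin d) :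
    (lev1 k i : Level (Fin d → Fin m)).Valid k where
  centre e e' c c' h h' hn := C1.centre hk (inj1 i) h h' hn
  mem e c h := ⟨h.1, h.2.1⟩
  sep e c h := by have := h.2.2.1; simp only [lev1]; omega

theorem lev1_step {k d m : ℕ} (hk : 4 ≤ k) (i : Fin d) (S : Finset (Fin d → Fin m)) :
    (∃ e ⊆ S, ∃ c, (lev1 k i : Level (Fin d → Fin m)).P e c) ∨
      ∃ S' ⊆ S, Set.InjOn (lev1 k i : Level (Fin d → Fin m)).key S' ∧
        S.card ≤ (k - 2) * S'.card + 1 * m := by
  rw [one_mul]
  exact unav1 hk (f_lt i) (inj1 i) S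

/-! ### Uniformity four -/

/-- The last type for uniformity four. -/
def F4 (m : ℕ) : Finset (Fin 3 → Fin m) → (Fin 3 → Fin m) → Prop :=
  C2 4 (key {1}) (f 0) (f 2)

/-- The levels for uniformity four. -/
def L4 (m : ℕ) : List (Level (Fin 3 → Fin m)) := [lev1 4 0, lev1 4 1, lev1 4 2]

theorem unav4 (m : ℕ) : Unav m (QL []) (edge (F4 m) (L4 m)) 31 := by
  have h : Unav m (QL []) (edge (F4 m) (L4 m)) (2 * (2 * (2 * 3 + 1) + 1) + 1) := by
    refine unav_cons (fun S _ => lev1_step le_rfl 0 S) ?_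
    refine unav_cons (fun S _ => lev1_step le_rfl 1 S) ?_
    refine unav_cons (fun S _ => lev1_step le_rfl 2 S) ?_
    intro S hQ hS
    have q0 : Set.InjOn (key (Finset.univ.erase 0)) (S : Set (Fin 3 → Fin m)) :=
      hQ _ (by simp [lev1])
    have q2 : Set.InjOn (key (Finset.univ.erase 2)) (S : Set (Fin 3 → Fin m)) :=
      hQ _ (by simp [lev1])
    refine unav2_final (f_lt 0) (f_lt 2) S ?_ ?_ ?_ hS
    · intro F hF
      refine card_le_of_injOn_lt (f_lt 1) (fun x hx y hy hxy => hF hx hy ?_)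
      rw [key_eq_iff]
      intro j hj
      rw [Finset.mem_singleton] at hj
      subst hj
      exact f_eq_iff.1 hxy
    · intro x hx y hy h1 h2
      apply q2 hx hy
      rw [key_eq_iff] at h1 ⊢
      rw [f_eq_iff] at h2
      intro j hj
      fin_cases j
      · exact h2
      · exact h1 1 (by simp)
      · simp at hj
    · intro x hx y hy h1 h2
      apply q0 hx hy
      rw [key_eq_iff] at h1 ⊢
      rw [f_eq_iff] at h2
      intro j hj
      fin_cases j
      · simp at hj
      · exact h1 1 (by simp)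
      · exact h2
  exact h

theorem L4_valid (m : ℕ) : ∀ l ∈ L4 m, l.Valid 4 := by
  intro l hl
  simp only [L4, List.mem_cons, List.not_mem_nil, or_false] at hl
  rcases hl with rfl | rfl | rfl <;> exact lev1_valid le_rfl _

theorem F4_centre (m : ℕ) (e e' : Finset (Fin 3 → Fin m)) (c c' : Fin 3 → Fin m)
    (h : F4 m e c) (h' : F4 m e' c') (hn : 4 - 1 ≤ (e ∩ e').card) : c = c' := by
  refine C2.centre le_rfl ?_ h h' hn
  intro x y h1 h2 h3
  rw [key_eq_iff] at h1
  rw [f_eq_iff] at h2 h3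
  funext j
  fin_cases j
  · exact h2
  · exact h1 1 (by simp)
  · exact h3

/-- What is needed of a construction for uniformity `k` on `[m]^(k-1)`. -/
def Construction (k A : ℕ) : Prop :=
  ∀ m : ℕ, ∃ E : Finset (Fin (k - 1) → Fin m) → (Fin (k - 1) → Fin m) → Prop,
    (∀ e c, E e c → c ∈ e ∧ e.card = k) ∧
    (∀ e e' c c', E e c → E e' c' → k - 1 ≤ (e ∩ e').card → c = c') ∧
    (∀ S : Finset (Fin (k - 1) → Fin m), A * m < S.card → ∃ e ⊆ S, ∃ c, E e c)

theorem construction4 : Construction 4 31 := by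
  intro m
  refine ⟨edge (F4 m) (L4 m), ?_, ?_, ?_⟩
  · exact edge_mem (fun e c h => ⟨h.1, h.2.1⟩) _ (L4_valid m)
  · exact edge_centre (F4_centre m) _ (L4_valid m)
  · intro S hS
    exact unav4 m S (fun κ hκ => absurd hκ (by simp)) hS

/-! ### Uniformity five -/

/-- The levels for pairs of coordinates. -/
def lev2 {m : ℕ} (a b c d : Fin 4) : Level (Fin 4 → Fin m) where
  key := key {a, b}
  P := C2 5 (key {a, b}) (f c) (f d)

theorem lev2_valid {m : ℕ} (a b c d : Fin 4) (hall : ∀ j : Fin 4, j = a ∨ j = b ∨ j = c ∨ j = d) :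
    (lev2 a b c d : Level (Fin 4 → Fin m)).Valid 5 where
  centre e e' x x' h h' hn := by
    refine C2.centre (by norm_num) ?_ h h' hn
    intro x y h1 h2 h3
    rw [key_eq_iff] at h1
    rw [f_eq_iff] at h2 h3
    funext j
    rcases hall j with rfl | rfl | rfl | rfl
    · exact h1 _ (by simp)
    · exact h1 _ (by simp)
    · exact h2
    · exact h3
  mem e c h := ⟨h.1, h.2.1⟩
  sep e c h := by have := h.2.2.1; simp only [lev2]; omega

theorem lev2_step {m : ℕ} (a b c d : Fin 4) (hall : ∀ j : Fin 4, j = a ∨ j = b ∨ j = c ∨ j = d)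
    (S : Finset (Fin 4 → Fin m))
    (hc : Set.InjOn (key (Finset.univ.erase c)) (S : Set (Fin 4 → Fin m)))
    (hd : Set.InjOn (key (Finset.univ.erase d)) (S : Set (Fin 4 → Fin m))) :
    (∃ e ⊆ S, ∃ x, (lev2 a b c d : Level (Fin 4 → Fin m)).P e x) ∨
      ∃ S' ⊆ S, Set.InjOn (lev2 a b c d : Level (Fin 4 → Fin m)).key S' ∧
        S.card ≤ 2 * S'.card + 2 * m := by
  refine unav2' (k := 5) (by norm_num) (f_lt c) (f_lt d) S ?_ ?_
  · intro x hx y hy h1 h2
    apply hd hx hy
    rw [key_eq_iff] at h1 ⊢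
    rw [f_eq_iff] at h2
    intro j hj
    rcases hall j with rfl | rfl | rfl | rfl
    · exact h1 _ (by simp)
    · exact h1 _ (by simp)
    · exact h2
    · simp at hj
  · intro x hx y hy h1 h2
    apply hc hx hy
    rw [key_eq_iff] at h1 ⊢
    rw [f_eq_iff] at h2
    intro j hj
    rcases hall j with rfl | rfl | rfl | rfl
    · exact h1 _ (by simp)
    · exact h1 _ (by simp)
    · simp at hj
    · exact h2

/-- The last type for uniformity five. -/
def F5 (m : ℕ) : Finset (Fin 4 → Fin m) → (Fin 4 → Fin m) → Prop :=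
  C3 (f 0) (f 1) (f 2) (f 3)

/-- The levels for uniformity five. -/
def L5 (m : ℕ) : List (Level (Fin 4 → Fin m)) :=
  [lev1 5 0, lev1 5 1, lev1 5 2, lev1 5 3, lev2 0 1 2 3, lev2 0 2 1 3, lev2 0 3 1 2,
    lev2 1 2 0 3, lev2 1 3 0 2, lev2 2 3 0 1]

theorem pair_inj {m : ℕ} {S : Finset (Fin 4 → Fin m)} {a b : Fin 4}
    (h : Set.InjOn (key {a, b}) (S : Set (Fin 4 → Fin m))) :
    ∀ x ∈ S, ∀ y ∈ S, f a x = f a y → f b x = f b y → x = y := by
  intro x hx y hy h1 h2
  apply h hx hy
  rw [key_eq_iff]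
  rw [f_eq_iff] at h1 h2
  intro j hj
  simp only [Finset.mem_insert, Finset.mem_singleton] at hj
  rcases hj with rfl | rfl
  · exact h1
  · exact h2

theorem unav5 (m : ℕ) : Unav m (QL []) (edge (F5 m) (L5 m)) 36166 := by
  have h : Unav m (QL []) (edge (F5 m) (L5 m)) (3 * (3 * (3 * (3 * (2 * (2 * (2 * (2 * (2 * (2 * 5
      + 2) + 2) + 2) + 2) + 2) + 2) + 1) + 1) + 1) + 1) := by
    refine unav_cons (fun S _ => lev1_step (by norm_num) 0 S) ?_
    refine unav_cons (fun S _ => lev1_step (by norm_num) 1 S) ?_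
    refine unav_cons (fun S _ => lev1_step (by norm_num) 2 S) ?_
    refine unav_cons (fun S _ => lev1_step (by norm_num) 3 S) ?_
    refine unav_cons (fun S hQ => lev2_step 0 1 2 3 (by decide) S (hQ _ (by simp [lev1]))
      (hQ _ (by simp [lev1]))) ?_
    refine unav_cons (fun S hQ => lev2_step 0 2 1 3 (by decide) S (hQ _ (by simp [lev1]))
      (hQ _ (by simp [lev1]))) ?_
    refine unav_cons (fun S hQ => lev2_step 0 3 1 2 (by decide) S (hQ _ (by simp [lev1]))
      (hQ _ (by simp [lev1]))) ?_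
    refine unav_cons (fun S hQ => lev2_step 1 2 0 3 (by decide) S (hQ _ (by simp [lev1]))
      (hQ _ (by simp [lev1]))) ?_
    refine unav_cons (fun S hQ => lev2_step 1 3 0 2 (by decide) S (hQ _ (by simp [lev1]))
      (hQ _ (by simp [lev1]))) ?_
    refine unav_cons (fun S hQ => lev2_step 2 3 0 1 (by decide) S (hQ _ (by simp [lev1]))
      (hQ _ (by simp [lev1]))) ?_
    intro S hQ hS
    have q01 : Set.InjOn (key {0, 1}) (S : Set (Fin 4 → Fin m)) := hQ _ (by simp [lev2])
    have q12 : Set.InjOn (key {1, 2}) (S : Set (Fin 4 → Fin m)) := hQ _ (by simp [lev2])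
    have q13 : Set.InjOn (key {1, 3}) (S : Set (Fin 4 → Fin m)) := hQ _ (by simp [lev2])
    have q23 : Set.InjOn (key {2, 3}) (S : Set (Fin 4 → Fin m)) := hQ _ (by simp [lev2])
    exact unav3 (f_lt 0) (f_lt 1) (f_lt 2) (f_lt 3) S (pair_inj q01) (pair_inj q12)
      (pair_inj q13) (pair_inj q23) hS
  exact h

theorem L5_valid (m : ℕ) : ∀ l ∈ L5 m, l.Valid 5 := by
  intro l hl
  simp only [L5, List.mem_cons, List.not_mem_nil, or_false] at hl
  rcases hl with rfl | rfl | rfl | rfl | rfl | rfl | rfl | rfl | rfl | rfl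
  · exact lev1_valid (by norm_num) _
  · exact lev1_valid (by norm_num) _
  · exact lev1_valid (by norm_num) _
  · exact lev1_valid (by norm_num) _
  all_goals exact lev2_valid _ _ _ _ (by decide)

theorem F5_centre (m : ℕ) (e e' : Finset (Fin 4 → Fin m)) (c c' : Fin 4 → Fin m)
    (h : F5 m e c) (h' : F5 m e' c') (hn : 5 - 1 ≤ (e ∩ e').card) : c = c' := by
  refine C3.centre ?_ h h' hn
  intro x y h0 h1 h2 h3
  rw [f_eq_iff] at h0 h1 h2 h3
  funext j
  fin_cases j
  · exact h0
  · exact h1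
  · exact h2
  · exact h3

theorem construction5 : Construction 5 36166 := by
  intro m
  refine ⟨edge (F5 m) (L5 m), ?_, ?_, ?_⟩
  · exact edge_mem (fun e c h => ⟨h.1, h.2.1⟩) _ (L5_valid m)
  · exact edge_centre (F5_centre m) _ (L5_valid m)
  · intro S hS
    exact unav5 m S (fun κ hκ => absurd hκ (by simp)) hS

end Pool.Agent.Lib.MP_8cf036_co_h19
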