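import Pool.Agent.Lib.MP_8cf036_co_h19.Levels

/-!
# The lower bound from a construction
-/

set_option autoImplicit false

namespace Pool.Agent.Lib.MP_8cf036_co_h19

theorem card_window {N a b : ℕ} (hb : b ≤ N) :
    (Finset.univ.filter fun j : Fin N => a ≤ j.val ∧ j.val < b).card = b - a := by
  rw [← Finset.card_map Fin.valEmbedding, ← Nat.card_Ico a b]
  congr 1
  ext x
  simp only [Finset.mem_map, Finset.mem_filter, Finset.mem_univ, true_and, Fin.valEmbedding_apply,
    Finset.mem_Ico]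
  constructor
  · rintro ⟨j, hj, rfl⟩
    exact hj
  · intro hx
    exact ⟨⟨x, by omega⟩, hx, rfl⟩

theorem lower {k A : ℕ} (hk : 2 ≤ k) (hA : 1 ≤ A) (hcon : Construction k A) {s : ℕ}
    (hs : k + 1 ≤ s) :
    ∃ c : ℝ, 0 < c ∧ ∃ T : ℕ, ∀ t : ℕ, T ≤ t → ∀ n : ℕ, (n : ℝ) ≤ c * (t : ℝ) ^ (k - 1) →
      ¬ (∀ H : Set (Finset (Fin n)),
        (∃ v : Fin (s + k - 1) → Fin n, Function.Injective v ∧
          ∀ i : Fin s,
            (Finset.univ.filter (fun j : Fin (s + k - 1) =>
                i.val ≤ j.val ∧ j.val < i.val + k)).image v ∈ H) ∨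
        (∃ S : Finset (Fin n), S.card = t ∧
          ∀ e : Finset (Fin n), e ⊆ S → e.card = k → e ∉ H)) := by
  have hA0 : (0 : ℝ) < A := by exact_mod_cast hA
  refine ⟨(1 / (2 * A)) ^ (k - 1), by positivity, 2 * (A + 1), ?_⟩
  intro t ht n hn hall
  obtain ⟨m, hm⟩ : ∃ m, m = (t - 1) / A := ⟨_, rfl⟩
  have hm1 : A * m < t := by
    have := Nat.mul_div_le (t - 1) A
    rw [hm]; omega
  have hm2 : t ≤ A * m + A := by
    have := Nat.lt_mul_div_succ (t - 1) (by omega : 0 < A)
    rw [← hm] at this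
    rw [Nat.mul_succ] at this
    omega
  have hm3 : (t : ℝ) ≤ 2 * A * m := by
    have h1 : t ≤ 2 * (A * m) := by omega
    have h2 : (t : ℝ) ≤ 2 * ((A : ℝ) * m) := by exact_mod_cast h1
    linarith
  have hnm : n ≤ m ^ (k - 1) := by
    have h1 : (1 / (2 * (A : ℝ))) ^ (k - 1) * (t : ℝ) ^ (k - 1) ≤ (m : ℝ) ^ (k - 1) := by
      rw [← mul_pow]
      apply pow_le_pow_left₀ (by positivity)
      rw [div_mul_eq_mul_div, one_mul, div_le_iff₀ (by positivity)]
      linarith
    exact_mod_cast hn.trans h1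
  obtain ⟨φ⟩ : Nonempty (Fin n ↪ (Fin (k - 1) → Fin m)) := by
    apply Function.Embedding.nonempty_of_card_le
    simpa using hnm
  obtain ⟨E, hE1, hE2, hE3⟩ := hcon m
  rcases hall {e | ∃ c, E (e.map φ) c} with ⟨v, hv, hw⟩ | ⟨S, hS, hind⟩
  · simp only [Set.mem_ofPred_eq] at hw
    choose c hc using hw
    have hstep : ∀ i : ℕ, ∀ hi : i + 1 < s, c ⟨i, by omega⟩ = c ⟨i + 1, hi⟩ := by
      intro i hi
      refine hE2 _ _ _ _ (hc ⟨i, by omega⟩) (hc ⟨i + 1, hi⟩) ?_
      rw [← Finset.map_inter, Finset.card_map]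
      have h1 : ((Finset.univ.filter fun j : Fin (s + k - 1) =>
          i + 1 ≤ j.val ∧ j.val < i + k).image v) ⊆
          (Finset.univ.filter (fun j : Fin (s + k - 1) =>
                i ≤ j.val ∧ j.val < i + k)).image v ∩
          (Finset.univ.filter (fun j : Fin (s + k - 1) =>
                i + 1 ≤ j.val ∧ j.val < i + 1 + k)).image v := by
        intro x hx
        rw [Finset.mem_image] at hx
        obtain ⟨j, hj, rfl⟩ := hx
        rw [Finset.mem_filter] at hj
        rw [Finset.mem_inter]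
        constructor
        · exact Finset.mem_image_of_mem v (by rw [Finset.mem_filter]; refine ⟨hj.1, ?_, ?_⟩ <;> omega)
        · exact Finset.mem_image_of_mem v (by rw [Finset.mem_filter]; refine ⟨hj.1, ?_, ?_⟩ <;> omega)
      have h2 := Finset.card_le_card h1
      rw [Finset.card_image_of_injective _ hv, card_window (by omega)] at h2
      refine le_trans ?_ h2
      omega
    have hconst : ∀ i : ℕ, ∀ hi : i < s, c ⟨i, hi⟩ = c ⟨0, by omega⟩ := by
      intro i
      induction i with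
      | zero => intro _; rfl
      | succ i ih =>
        intro hi
        rw [← hstep i hi]
        exact ih (by omega)
    have h0 := (hE1 _ _ (hc ⟨0, by omega⟩)).1
    have h1 := (hE1 _ _ (hc ⟨k, by omega⟩)).1
    rw [hconst k (by omega)] at h1
    simp only [Finset.mem_map, Finset.mem_image, Finset.mem_filter, Finset.mem_univ,
      true_and] at h0 h1
    obtain ⟨_, ⟨j0, hj0, rfl⟩, h0⟩ := h0
    obtain ⟨_, ⟨j1, hj1, rfl⟩, h1⟩ := h1
    have h3 : j0 = j1 := hv (φ.injective (h0.trans h1.symm))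
    rw [h3] at hj0
    omega
  · have h1 : A * m < (S.map φ).card := by rw [Finset.card_map, hS]; exact hm1
    obtain ⟨e', he', c, hc⟩ := hE3 _ h1
    obtain ⟨e, he, rfl⟩ := Finset.subset_map_iff.1 he'
    have h2 := (hE1 _ _ hc).2
    rw [Finset.card_map] at h2
    exact hind e he h2 ⟨c, hc⟩

end Pool.Agent.Lib.MP_8cf036_co_h19
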