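import Mathlib

/-!
# Three types of edges with a recoverable centre (MP_8cf036_co)

`C1`, `C2`, `C3` say that `e` is an edge of a certain type with centre `c`.  Two edges of the same
type that share all but one of their vertices have the same centre.
-/

set_option autoImplicit false

namespace Pool.Agent.Lib.MP_8cf036_co_h19

variable {V : Type*} [DecidableEq V]

/-- All but one vertex lie in the key class of `c`, `c` has the least `h` there, and the remaining
vertex has the same `h` as `c`. -/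
def C1 (k : ℕ) (κ h : V → ℕ) (e : Finset V) (c : V) : Prop :=
  c ∈ e ∧ e.card = k ∧ (e.filter fun x => κ x = κ c).card = k - 1 ∧
  (∀ x ∈ e, κ x = κ c → h c ≤ h x) ∧ (∀ x ∈ e, κ x ≠ κ c → h x = h c)

/-- All but two vertices lie in the key class of `c`, one vertex is above and has the same `g` as
`c`, one vertex is below and has the same `h` as `c`. -/
def C2 (k : ℕ) (κ g h : V → ℕ) (e : Finset V) (c : V) : Prop :=
  c ∈ e ∧ e.card = k ∧ (e.filter fun x => κ x = κ c).card = k - 2 ∧
  (e.filter fun x => κ c < κ x).card = 1 ∧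
  (∀ x ∈ e, κ c < κ x → g x = g c) ∧ (∀ x ∈ e, κ x < κ c → h x = h c) ∧
  (∀ x ∈ e, κ x = κ c → x ≠ c → g x ≠ g c ∧ h x ≠ h c)

/-- `b` lies strictly between `a` and `z`. -/
def Btw (a b z : ℕ) : Prop := (a < b ∧ b < z) ∨ (z < b ∧ b < a)

/-- The generic type for uniformity five. -/
def C3 (f0 f1 f2 f3 : V → ℕ) (e : Finset V) (c : V) : Prop :=
  c ∈ e ∧ e.card = 5 ∧ (e.filter fun x => f1 x = f1 c).card = 2 ∧
  (e.filter fun x => f1 c < f1 x).card = 1 ∧
  (∀ x ∈ e, f1 c < f1 x → f0 x = f0 c) ∧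
  ∃ r1 ∈ e, ∃ r2 ∈ e, ∃ r3 ∈ e, r1 ≠ c ∧ f1 r1 = f1 c ∧ f0 r1 ≠ f0 c ∧
    f1 r2 < f1 c ∧ f1 r3 < f1 c ∧ r2 ≠ r3 ∧ f2 r2 = f2 c ∧ f3 r3 = f3 c ∧
    Btw (f2 r1) (f2 c) (f2 r3)

theorem C1.centre {k : ℕ} {κ h : V → ℕ} {e e' : Finset V} {c c' : V} (hk : 4 ≤ k)
    (hinj : ∀ x y, κ x = κ y → h x = h y → x = y) (h1 : C1 k κ h e c) (h2 : C1 k κ h e' c')
    (hn : k - 1 ≤ (e ∩ e').card) : c = c' := by
  obtain ⟨hc, hcard, hmid, hlow, hleaf⟩ := h1
  obtain ⟨hc', hcard', hmid', hlow', hleaf'⟩ := h2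
  have ho : (e.filter fun x => ¬ κ x = κ c).card = 1 := by
    have := Finset.card_filter_add_card_filter_not (s := e) (fun x => κ x = κ c)
    omega
  have ho' : (e'.filter fun x => ¬ κ x = κ c').card = 1 := by
    have := Finset.card_filter_add_card_filter_not (s := e') (fun x => κ x = κ c')
    omega
  have hκ : κ c = κ c' := by
    by_contra hne
    have hsub : e ∩ e' ⊆ (e.filter fun x => ¬ κ x = κ c) ∪ (e'.filter fun x => ¬ κ x = κ c') := by
      intro x hx
      rw [Finset.mem_inter] at hx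
      rw [Finset.mem_union, Finset.mem_filter, Finset.mem_filter]
      by_cases h3 : κ x = κ c
      · right
        exact ⟨hx.2, fun h4 => hne (h3.symm.trans h4)⟩
      · left
        exact ⟨hx.1, h3⟩
    have := (Finset.card_le_card hsub).trans (Finset.card_union_le _ _)
    omega
  by_cases hex : ∃ u ∈ e ∩ e', κ u ≠ κ c
  · obtain ⟨u, hu, hne⟩ := hex
    rw [Finset.mem_inter] at hu
    apply hinj _ _ hκ
    rw [← hleaf u hu.1 hne, hleaf' u hu.2 (by rwa [← hκ])]
  · push Not at hex
    have hsub : e ∩ e' ⊆ e.filter fun x => κ x = κ c := by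
      intro x hx
      rw [Finset.mem_filter]
      exact ⟨(Finset.mem_inter.1 hx).1, hex x hx⟩
    have hsub' : e ∩ e' ⊆ e'.filter fun x => κ x = κ c' := by
      intro x hx
      rw [Finset.mem_filter]
      exact ⟨(Finset.mem_inter.1 hx).2, (hex x hx).trans hκ⟩
    have heq := Finset.eq_of_subset_of_card_le hsub (by omega)
    have heq' := Finset.eq_of_subset_of_card_le hsub' (by omega)
    have m1 : c ∈ e ∩ e' := by rw [heq, Finset.mem_filter]; exact ⟨hc, rfl⟩
    have m2 : c' ∈ e ∩ e' := by rw [heq', Finset.mem_filter]; exact ⟨hc', rfl⟩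
    rw [Finset.mem_inter] at m1 m2
    exact hinj _ _ hκ (le_antisymm (hlow c' m2.1 hκ.symm) (hlow' c m1.2 hκ))

omit [DecidableEq V] in
theorem C2.low_card {k : ℕ} {κ g h : V → ℕ} {e : Finset V} {c : V} (hk : 4 ≤ k)
    (h1 : C2 k κ g h e c) : (e.filter fun x => κ x < κ c).card = 1 := by
  obtain ⟨hc, hcard, hmid, hhigh, -⟩ := h1
  have h2 := Finset.card_filter_add_card_filter_not (s := e) (fun x => κ x = κ c)
  have h3 := Finset.card_filter_add_card_filter_not
    (s := e.filter (fun x => ¬ κ x = κ c)) (fun x => κ c < κ x)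
  rw [Finset.filter_filter, Finset.filter_filter] at h3
  have e1 : (e.filter fun x => ¬ κ x = κ c ∧ κ c < κ x) = e.filter fun x => κ c < κ x := by
    apply Finset.filter_congr; intro x _; constructor
    · exact fun h => h.2
    · exact fun h => ⟨by omega, h⟩
  have e2 : (e.filter fun x => ¬ κ x = κ c ∧ ¬ κ c < κ x) = e.filter fun x => κ x < κ c := by
    apply Finset.filter_congr; intro x _; constructor
    · rintro ⟨h1, h2⟩; omega
    · exact fun h => ⟨by omega, by omega⟩
  rw [e1, e2] at h3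
  omega

theorem C2.centre_aux {k : ℕ} {κ g h : V → ℕ} {e e' : Finset V} {c c' : V} (hk : 4 ≤ k)
    (h1 : C2 k κ g h e c) (h2 : C2 k κ g h e' c')
    (hn : k - 1 ≤ (e ∩ e').card) : κ c' ≤ κ c := by
  by_contra hlt
  push Not at hlt
  have hl := C2.low_card hk h2
  have hh := h1.2.2.2.1
  have hsub : e ∩ e' ⊆ (e.filter fun x => κ c < κ x) ∪ (e'.filter fun x => κ x < κ c') := by
    intro x hx
    rw [Finset.mem_inter] at hx
    rw [Finset.mem_union, Finset.mem_filter, Finset.mem_filter]
    by_cases h3 : κ x < κ c'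
    · exact Or.inr ⟨hx.2, h3⟩
    · exact Or.inl ⟨hx.1, by omega⟩
  have := (Finset.card_le_card hsub).trans (Finset.card_union_le _ _)
  omega

theorem C2.centre {k : ℕ} {κ g h : V → ℕ} {e e' : Finset V} {c c' : V} (hk : 4 ≤ k)
    (hinj : ∀ x y, κ x = κ y → g x = g y → h x = h y → x = y)
    (h1 : C2 k κ g h e c) (h2 : C2 k κ g h e' c')
    (hn : k - 1 ≤ (e ∩ e').card) : c = c' := by
  have hκ : κ c = κ c' := le_antisymm
    (C2.centre_aux hk h2 h1 (by rwa [Finset.inter_comm])) (C2.centre_aux hk h1 h2 hn)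
  have hlc := C2.low_card hk h1
  have hlc' := C2.low_card hk h2
  obtain ⟨hc, hcard, hmid, hhigh, hg, hh, hd⟩ := h1
  obtain ⟨hc', hcard', hmid', hhigh', hg', hh', hd'⟩ := h2
  by_cases hu : ∃ u ∈ e ∩ e', κ c < κ u
  · obtain ⟨u, hu, hcu⟩ := hu
    rw [Finset.mem_inter] at hu
    have hgg : g c = g c' := by rw [← hg u hu.1 hcu, hg' u hu.2 (by omega)]
    by_cases hw : ∃ w ∈ e ∩ e', κ w < κ c
    · obtain ⟨w, hw, hcw⟩ := hw
      rw [Finset.mem_inter] at hw
      apply hinj _ _ hκ hgg
      rw [← hh w hw.1 hcw, hh' w hw.2 (by omega)]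
    · push Not at hw
      -- all but the low vertex are common
      have hsub : e ∩ e' ⊆ e.filter fun x => ¬ κ x < κ c := by
        intro x hx
        rw [Finset.mem_filter]
        exact ⟨(Finset.mem_inter.1 hx).1, by have := hw x hx; omega⟩
      have hcd := Finset.card_filter_add_card_filter_not (s := e) (fun x => κ x < κ c)
      have heq := Finset.eq_of_subset_of_card_le hsub (by omega)
      have m1 : c ∈ e ∩ e' := by
        rw [heq, Finset.mem_filter]; exact ⟨hc, lt_irrefl _⟩
      rw [Finset.mem_inter] at m1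
      by_contra hne
      exact (hd' c m1.2 hκ hne).1 hgg
  · push Not at hu
    have hsub : e ∩ e' ⊆ e.filter fun x => ¬ κ c < κ x := by
      intro x hx
      rw [Finset.mem_filter]
      exact ⟨(Finset.mem_inter.1 hx).1, by have := hu x hx; omega⟩
    have hcd := Finset.card_filter_add_card_filter_not (s := e) (fun x => κ c < κ x)
    have heq := Finset.eq_of_subset_of_card_le hsub (by omega)
    have m1 : c ∈ e ∩ e' := by
      rw [heq, Finset.mem_filter]; exact ⟨hc, lt_irrefl _⟩
    obtain ⟨w, hw⟩ := Finset.card_pos.1 (by omega : 0 < (e.filter fun x => κ x < κ c).card)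
    rw [Finset.mem_filter] at hw
    have m2 : w ∈ e ∩ e' := by
      rw [heq, Finset.mem_filter]; exact ⟨hw.1, by omega⟩
    rw [Finset.mem_inter] at m1 m2
    have hhh : h c = h c' := by rw [← hh w m2.1 hw.2, hh' w m2.2 (by omega)]
    by_contra hne
    exact (hd' c m1.2 hκ hne).2 hhh

omit [DecidableEq V] in
theorem C3.low_card {f0 f1 f2 f3 : V → ℕ} {e : Finset V} {c : V}
    (h1 : C3 f0 f1 f2 f3 e c) : (e.filter fun x => f1 x < f1 c).card = 2 := by
  obtain ⟨hc, hcard, hmid, hhigh, -⟩ := h1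
  have h2 := Finset.card_filter_add_card_filter_not (s := e) (fun x => f1 x = f1 c)
  have h3 := Finset.card_filter_add_card_filter_not
    (s := e.filter (fun x => ¬ f1 x = f1 c)) (fun x => f1 c < f1 x)
  rw [Finset.filter_filter, Finset.filter_filter] at h3
  have e1 : (e.filter fun x => ¬ f1 x = f1 c ∧ f1 c < f1 x) = e.filter fun x => f1 c < f1 x := by
    apply Finset.filter_congr; intro x _; constructor
    · exact fun h => h.2
    · exact fun h => ⟨by omega, h⟩
  have e2 : (e.filter fun x => ¬ f1 x = f1 c ∧ ¬ f1 c < f1 x) = e.filter fun x => f1 x < f1 c := by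
    apply Finset.filter_congr; intro x _; constructor
    · rintro ⟨h1, h2⟩; omega
    · exact fun h => ⟨by omega, by omega⟩
  rw [e1, e2] at h3
  omega

theorem C3.centre_aux {f0 f1 f2 f3 : V → ℕ} {e e' : Finset V} {c c' : V}
    (h1 : C3 f0 f1 f2 f3 e c) (h2 : C3 f0 f1 f2 f3 e' c')
    (hn : 4 ≤ (e ∩ e').card) : f1 c' ≤ f1 c := by
  by_contra hlt
  push Not at hlt
  have hl := C3.low_card h2
  have hh := h1.2.2.2.1
  have hsub : e ∩ e' ⊆ (e.filter fun x => f1 c < f1 x) ∪ (e'.filter fun x => f1 x < f1 c') := by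
    intro x hx
    rw [Finset.mem_inter] at hx
    rw [Finset.mem_union, Finset.mem_filter, Finset.mem_filter]
    by_cases h3 : f1 x < f1 c'
    · exact Or.inr ⟨hx.2, h3⟩
    · exact Or.inl ⟨hx.1, by omega⟩
  have := (Finset.card_le_card hsub).trans (Finset.card_union_le _ _)
  omega

/-- In a set with two elements, a third element is one of two given distinct ones. -/
theorem eq_or_eq_of_card_two {s : Finset V} (hs : s.card = 2) {a b x : V} (ha : a ∈ s)
    (hb : b ∈ s) (hab : a ≠ b) (hx : x ∈ s) : x = a ∨ x = b := by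
  by_contra hcon
  push Not at hcon
  have : ({a, b, x} : Finset V) ⊆ s := by
    intro y hy
    simp only [Finset.mem_insert, Finset.mem_singleton] at hy
    rcases hy with rfl | rfl | rfl <;> assumption
  have h2 := Finset.card_le_card this
  rw [Finset.card_insert_of_notMem, Finset.card_insert_of_notMem, Finset.card_singleton] at h2
  · omega
  · rw [Finset.mem_singleton]; exact fun h => hcon.2 h.symm
  · simp only [Finset.mem_insert, Finset.mem_singleton]
    rintro (h | h)
    · exact hab h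
    · exact hcon.1 h.symm

theorem C3.centre {f0 f1 f2 f3 : V → ℕ} {e e' : Finset V} {c c' : V}
    (hinj : ∀ x y, f0 x = f0 y → f1 x = f1 y → f2 x = f2 y → f3 x = f3 y → x = y)
    (h1 : C3 f0 f1 f2 f3 e c) (h2 : C3 f0 f1 f2 f3 e' c')
    (hn : 4 ≤ (e ∩ e').card) : c = c' := by
  have hκ : f1 c = f1 c' := le_antisymm
    (C3.centre_aux h2 h1 (by rwa [Finset.inter_comm])) (C3.centre_aux h1 h2 hn)
  have hlc := C3.low_card h1
  have hlc' := C3.low_card h2
  obtain ⟨hc, hcard, hmid, hhigh, h0, r1, hr1, r2, hr2, r3, hr3, a1, a2, a3, a4, a5, a6, a7, a8,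
    a9⟩ := h1
  obtain ⟨hc', hcard', hmid', hhigh', h0', r1', hr1', r2', hr2', r3', hr3', b1, b2, b3, b4, b5,
    b6, b7, b8, b9⟩ := h2
  -- membership in the classes
  have mid' : ∀ x ∈ e', f1 x = f1 c' → x ≠ c' → x = r1' := by
    intro x hx hx1 hxc
    have := eq_or_eq_of_card_two hmid' (a := c') (b := r1') (x := x)
      (Finset.mem_filter.2 ⟨hc', rfl⟩) (Finset.mem_filter.2 ⟨hr1', b2⟩) (Ne.symm b1)
      (Finset.mem_filter.2 ⟨hx, hx1⟩)
    exact this.resolve_left hxc
  have mid : ∀ x ∈ e, f1 x = f1 c → x ≠ c → x = r1 := by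
    intro x hx hx1 hxc
    have := eq_or_eq_of_card_two hmid (a := c) (b := r1) (x := x)
      (Finset.mem_filter.2 ⟨hc, rfl⟩) (Finset.mem_filter.2 ⟨hr1, a2⟩) (Ne.symm a1)
      (Finset.mem_filter.2 ⟨hx, hx1⟩)
    exact this.resolve_left hxc
  have low' : ∀ x ∈ e', f1 x < f1 c' → x = r2' ∨ x = r3' := by
    intro x hx hx1
    exact eq_or_eq_of_card_two hlc' (Finset.mem_filter.2 ⟨hr2', b4⟩)
      (Finset.mem_filter.2 ⟨hr3', b5⟩) b6 (Finset.mem_filter.2 ⟨hx, hx1⟩)
  -- the missing vertex
  have hdiff : (e \ e').card ≤ 1 := by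
    have := Finset.card_sdiff_add_card_inter e e'
    omega
  have hmiss : ∀ x ∈ e, x ∉ e' → ∀ y ∈ e, y ≠ x → y ∈ e' := by
    intro x hx hx' y hy hyx
    by_contra hy'
    apply hyx
    exact Finset.card_le_one.1 hdiff y (Finset.mem_sdiff.2 ⟨hy, hy'⟩) x
      (Finset.mem_sdiff.2 ⟨hx, hx'⟩)
  by_contra hne
  by_cases hu : ∃ u ∈ e ∩ e', f1 c < f1 u
  · obtain ⟨u, hu, hcu⟩ := hu
    rw [Finset.mem_inter] at hu
    have hgg : f0 c = f0 c' := by rw [← h0 u hu.1 hcu, h0' u hu.2 (by omega)]
    have hcn : c ∉ e' := by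
      intro hce
      have h3 := mid' c hce hκ hne
      rw [← h3] at b3
      exact b3 hgg
    have hall := hmiss c hc hcn
    have k1 : r1 ∈ e' := hall r1 hr1 a1
    have k2 : r2 ∈ e' := hall r2 hr2 (by rintro rfl; omega)
    have k3 : r3 ∈ e' := hall r3 hr3 (by rintro rfl; omega)
    have hr : r1 = r1' := by
      apply mid' r1 k1 (a2.trans hκ)
      rintro rfl
      exact a3 hgg.symm
    subst hr
    rcases low' r2 k2 (by omega) with h3 | h3
    · have h4 : r3 = r3' := by
        rcases low' r3 k3 (by omega) with h4 | h4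
        · exact absurd (h3.trans h4.symm) a6
        · exact h4
      apply hne
      apply hinj _ _ hgg hκ
      · rw [← a7, ← b7, h3]
      · rw [← a8, ← b8, h4]
    · have h4 : r3 = r2' := by
        rcases low' r3 k3 (by omega) with h4 | h4
        · exact h4
        · exact absurd (h3.trans h4.symm) a6
      rw [← h3, a7] at b9
      rw [← h4] at b7
      unfold Btw at a9 b9
      omega
  · push Not at hu
    have hsub : e ∩ e' ⊆ e.filter fun x => ¬ f1 c < f1 x := by
      intro x hx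
      rw [Finset.mem_filter]
      exact ⟨(Finset.mem_inter.1 hx).1, by have := hu x hx; omega⟩
    have hcd := Finset.card_filter_add_card_filter_not (s := e) (fun x => f1 c < f1 x)
    have heq := Finset.eq_of_subset_of_card_le hsub (by omega)
    have hin : ∀ x ∈ e, ¬ f1 c < f1 x → x ∈ e' := by
      intro x hx hx1
      have : x ∈ e ∩ e' := by rw [heq, Finset.mem_filter]; exact ⟨hx, hx1⟩
      exact (Finset.mem_inter.1 this).2
    have k0 : c ∈ e' := hin c hc (lt_irrefl _)
    have hr1c : c = r1' := mid' c k0 hκ hne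
    have k1 : r1 ∈ e' := hin r1 hr1 (by omega)
    have hr1' : r1 = c' := by
      by_contra h3
      have := mid' r1 k1 (a2.trans hκ) h3
      exact a1 (this.trans hr1c.symm)
    have k2 : r2 ∈ e' := hin r2 hr2 (by omega)
    have k3 : r3 ∈ e' := hin r3 hr3 (by omega)
    rcases low' r2 k2 (by omega) with h3 | h3
    · rw [← h3, a7, ← hr1'] at b7
      unfold Btw at a9
      omega
    · rw [← h3, a7, ← hr1c] at b9
      unfold Btw at b9
      omega

end Pool.Agent.Lib.MP_8cf036_co_h19
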