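import Pool.Agent.Lib.MP_8cf036_co_h19.Types

/-!
# Every large set contains an edge of one of the types, or is free of coincidences
-/

set_option autoImplicit false

namespace Pool.Agent.Lib.MP_8cf036_co_h19

variable {V : Type*} [DecidableEq V]

omit [DecidableEq V] in
theorem card_le_of_injOn_lt {m : ℕ} {h : V → ℕ} (hm : ∀ x, h x < m) {F : Finset V}
    (hF : ∀ x ∈ F, ∀ y ∈ F, h x = h y → x = y) : F.card ≤ m := by
  have := Finset.card_le_card_of_injOn (s := F) (t := Finset.range m) h
    (fun x _ => by simpa using hm x) (fun x hx y hy hxy => hF x hx y hy hxy)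
  simpa using this

omit [DecidableEq V] in
/-- A set whose key classes have at most `a` points contains a transversal. -/
theorem exists_transversal {κ : V → ℕ} {a : ℕ} (S : Finset V)
    (hS : ∀ b ∈ S.image κ, (S.filter fun x => κ x = b).card ≤ a) :
    ∃ S' ⊆ S, Set.InjOn κ S' ∧ S.card ≤ a * S'.card := by
  classical
  have h1 := Finset.card_le_mul_card_image (f := κ) S a hS
  obtain ⟨u, hus, hinj, himg⟩ := Finset.exists_subset_injOn_image_eq_of_surjOn (f := κ)
    (S : Set V) (S.image κ) (by intro y hy; simpa using hy)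
  refine ⟨u, by exact_mod_cast hus, hinj, ?_⟩
  rw [← himg, Finset.card_image_of_injOn hinj] at h1
  exact h1

theorem unav1 {k m : ℕ} (hk : 4 ≤ k) {κ h : V → ℕ} (hm : ∀ x, h x < m)
    (hinj : ∀ x y, κ x = κ y → h x = h y → x = y) (S : Finset V) :
    (∃ e ⊆ S, ∃ c, C1 k κ h e c) ∨
      ∃ S' ⊆ S, Set.InjOn κ S' ∧ S.card ≤ (k - 2) * S'.card + m := by
  classical
  set G := S.filter fun c => k - 2 ≤ (S.filter fun x => κ x = κ c ∧ h c < h x).card with hG
  by_cases hex : ∃ c ∈ G, ∃ u ∈ G, c ≠ u ∧ h c = h u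
  · left
    obtain ⟨c, hc, u, hu, hcu, hh⟩ := hex
    rw [hG, Finset.mem_filter] at hc hu
    have hκ : κ c ≠ κ u := fun h3 => hcu (hinj _ _ h3 hh)
    obtain ⟨M0, hM0, hM0c⟩ := Finset.exists_subset_card_eq hc.2
    have hM0' : ∀ x ∈ M0, x ∈ S ∧ κ x = κ c ∧ h c < h x := by
      intro x hx
      have := hM0 hx
      rw [Finset.mem_filter] at this
      exact this
    have hcM : c ∉ M0 := fun h3 => lt_irrefl _ (hM0' c h3).2.2
    have huM : u ∉ insert c M0 := by
      rw [Finset.mem_insert]
      rintro (h3 | h3)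
      · exact hcu h3.symm
      · exact hκ (hM0' u h3).2.1.symm
    refine ⟨insert u (insert c M0), ?_, c, ?_, ?_, ?_, ?_, ?_⟩
    · intro x hx
      rw [Finset.mem_insert, Finset.mem_insert] at hx
      rcases hx with rfl | rfl | hx
      · exact hu.1
      · exact hc.1
      · exact (hM0' x hx).1
    · simp
    · rw [Finset.card_insert_of_notMem huM, Finset.card_insert_of_notMem hcM, hM0c]
      omega
    · have : (insert u (insert c M0)).filter (fun x => κ x = κ c) = insert c M0 := by
        ext x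
        simp only [Finset.mem_filter, Finset.mem_insert]
        constructor
        · rintro ⟨rfl | h3, h4⟩
          · exact absurd h4.symm hκ
          · exact h3
        · rintro (rfl | h3)
          · exact ⟨Or.inr (Or.inl rfl), rfl⟩
          · exact ⟨Or.inr (Or.inr h3), (hM0' x h3).2.1⟩
      rw [this, Finset.card_insert_of_notMem hcM, hM0c]
      omega
    · intro x hx hx2
      rw [Finset.mem_insert, Finset.mem_insert] at hx
      rcases hx with rfl | rfl | hx
      · exact hh.le
      · exact le_rfl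
      · exact (hM0' x hx).2.2.le
    · intro x hx hx2
      rw [Finset.mem_insert, Finset.mem_insert] at hx
      rcases hx with rfl | rfl | hx
      · exact hh.symm
      · exact absurd rfl hx2
      · exact absurd (hM0' x hx).2.1 hx2
  · right
    push Not at hex
    have hGc : G.card ≤ m := card_le_of_injOn_lt hm (fun x hx y hy hxy => by
      by_contra hne
      exact hex x hx y hy hne hxy)
    have hsplit := Finset.card_filter_add_card_filter_not (s := S)
      (fun c => k - 2 ≤ (S.filter fun x => κ x = κ c ∧ h c < h x).card)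
    rw [← hG] at hsplit
    obtain ⟨S', hS', hI, hcard⟩ := exists_transversal (κ := κ) (a := k - 2)
      (S.filter fun c => ¬ k - 2 ≤ (S.filter fun x => κ x = κ c ∧ h c < h x).card) (by
        intro b hb
        by_contra hlt0
        have hlt := not_le.1 hlt0
        obtain ⟨c, hc, hmin⟩ := Finset.exists_min_image _ h (Finset.card_pos.1 (by omega :
          0 < ((S.filter fun c => ¬ k - 2 ≤
            (S.filter fun x => κ x = κ c ∧ h c < h x).card).filter fun x => κ x = b).card))
        rw [Finset.mem_filter, Finset.mem_filter] at hc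
        apply hc.1.2
        have hsub : (((S.filter fun c => ¬ k - 2 ≤
            (S.filter fun x => κ x = κ c ∧ h c < h x).card).filter fun x => κ x = b).erase c) ⊆
            S.filter fun x => κ x = κ c ∧ h c < h x := by
          intro x hx
          rw [Finset.mem_erase] at hx
          have hx2 := hmin x hx.2
          rw [Finset.mem_filter, Finset.mem_filter] at hx
          rw [Finset.mem_filter]
          refine ⟨hx.2.1.1, by rw [hx.2.2, hc.2], lt_of_le_of_ne hx2 ?_⟩
          intro h3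
          exact hx.1 (hinj _ _ (by rw [hx.2.2, hc.2]) h3.symm)
        have h4 := Finset.card_le_card hsub
        rw [Finset.card_erase_of_mem (by
          rw [Finset.mem_filter, Finset.mem_filter]; exact hc)] at h4
        omega)
    refine ⟨S', hS'.trans (Finset.filter_subset _ _), hI, ?_⟩
    omega

theorem unav2 {k m : ℕ} (hk : 4 ≤ k) {κ g h : V → ℕ} (hmg : ∀ x, g x < m) (hmh : ∀ x, h x < m)
    (S : Finset V)
    (hg : ∀ x ∈ S, ∀ y ∈ S, κ x = κ y → g x = g y → x = y)
    (hh : ∀ x ∈ S, ∀ y ∈ S, κ x = κ y → h x = h y → x = y) :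
    (∃ e ⊆ S, ∃ c, C2 k κ g h e c) ∨
      (S.filter fun c => k - 2 ≤ (S.filter fun x => κ x = κ c).card).card ≤ 2 * m := by
  classical
  set B := S.filter fun c => k - 2 ≤ (S.filter fun x => κ x = κ c).card with hB
  set Bu := S.filter fun c => ∀ u ∈ S, g u = g c → κ u ≤ κ c with hBu
  set Bw := S.filter fun c => ∀ w ∈ S, h w = h c → κ c ≤ κ w with hBw
  have hBuc : Bu.card ≤ m := card_le_of_injOn_lt hmg (fun x hx y hy hxy => by
    rw [hBu, Finset.mem_filter] at hx hy
    exact hg x hx.1 y hy.1 (le_antisymm (hy.2 x hx.1 hxy) (hx.2 y hy.1 hxy.symm)) hxy)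
  have hBwc : Bw.card ≤ m := card_le_of_injOn_lt hmh (fun x hx y hy hxy => by
    rw [hBw, Finset.mem_filter] at hx hy
    exact hh x hx.1 y hy.1 (le_antisymm (hx.2 y hy.1 hxy.symm) (hy.2 x hx.1 hxy)) hxy)
  by_cases hlt : 2 * m < B.card
  · left
    obtain ⟨c, hcB, hcn⟩ : ∃ c ∈ B, c ∉ Bu ∪ Bw := by
      by_contra hcon
      push Not at hcon
      have := (Finset.card_le_card hcon).trans (Finset.card_union_le _ _)
      omega
    rw [hB, Finset.mem_filter] at hcB
    rw [Finset.mem_union, not_or] at hcn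
    obtain ⟨u, hu, hgu, hcu⟩ : ∃ u ∈ S, g u = g c ∧ κ c < κ u := by
      by_contra hcon
      push Not at hcon
      exact hcn.1 (by rw [hBu, Finset.mem_filter]; exact ⟨hcB.1, hcon⟩)
    obtain ⟨w, hw, hhw, hcw⟩ : ∃ w ∈ S, h w = h c ∧ κ w < κ c := by
      by_contra hcon
      push Not at hcon
      exact hcn.2 (by rw [hBw, Finset.mem_filter]; exact ⟨hcB.1, hcon⟩)
    have h3 : k - 3 ≤ ((S.filter fun x => κ x = κ c).erase c).card := by
      rw [Finset.card_erase_of_mem (by rw [Finset.mem_filter]; exact ⟨hcB.1, rfl⟩)]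
      omega
    obtain ⟨M0, hM0, hM0c⟩ := Finset.exists_subset_card_eq h3
    have hM0' : ∀ x ∈ M0, x ∈ S ∧ κ x = κ c ∧ x ≠ c := by
      intro x hx
      have := hM0 hx
      rw [Finset.mem_erase, Finset.mem_filter] at this
      exact ⟨this.2.1, this.2.2, this.1⟩
    have hcM : c ∉ M0 := fun h3 => (hM0' c h3).2.2 rfl
    have hwM : w ∉ insert c M0 := by
      rw [Finset.mem_insert]
      rintro (h3 | h3)
      · rw [h3] at hcw; exact lt_irrefl _ hcw
      · exact hcw.ne (hM0' w h3).2.1
    have huM : u ∉ insert w (insert c M0) := by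
      rw [Finset.mem_insert, Finset.mem_insert]
      rintro (h3 | h3 | h3)
      · rw [h3] at hcu; exact lt_asymm hcu hcw
      · rw [h3] at hcu; exact lt_irrefl _ hcu
      · exact hcu.ne' (hM0' u h3).2.1
    refine ⟨insert u (insert w (insert c M0)), ?_, c, ?_, ?_, ?_, ?_, ?_, ?_, ?_⟩
    · intro x hx
      rw [Finset.mem_insert, Finset.mem_insert, Finset.mem_insert] at hx
      rcases hx with rfl | rfl | rfl | hx
      · exact hu
      · exact hw
      · exact hcB.1
      · exact (hM0' x hx).1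
    · simp
    · rw [Finset.card_insert_of_notMem huM, Finset.card_insert_of_notMem hwM,
        Finset.card_insert_of_notMem hcM, hM0c]
      omega
    · have : (insert u (insert w (insert c M0))).filter (fun x => κ x = κ c) = insert c M0 := by
        ext x
        simp only [Finset.mem_filter, Finset.mem_insert]
        constructor
        · rintro ⟨rfl | rfl | h3, h4⟩
          · exact absurd h4 hcu.ne'
          · exact absurd h4 hcw.ne
          · exact h3
        · rintro (rfl | h3)
          · exact ⟨Or.inr (Or.inr (Or.inl rfl)), rfl⟩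
          · exact ⟨Or.inr (Or.inr (Or.inr h3)), (hM0' x h3).2.1⟩
      rw [this, Finset.card_insert_of_notMem hcM, hM0c]
      omega
    · have : (insert u (insert w (insert c M0))).filter (fun x => κ c < κ x) = {u} := by
        ext x
        simp only [Finset.mem_filter, Finset.mem_insert, Finset.mem_singleton]
        constructor
        · rintro ⟨rfl | rfl | rfl | h3, h4⟩
          · rfl
          · exact absurd h4 (not_lt.2 hcw.le)
          · exact absurd h4 (lt_irrefl _)
          · exact absurd h4 (by rw [(hM0' x h3).2.1]; exact lt_irrefl _)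
        · rintro rfl
          exact ⟨Or.inl rfl, hcu⟩
      rw [this, Finset.card_singleton]
    · intro x hx hx2
      rw [Finset.mem_insert, Finset.mem_insert, Finset.mem_insert] at hx
      rcases hx with rfl | rfl | rfl | hx
      · exact hgu
      · exact absurd hx2 (not_lt.2 hcw.le)
      · exact absurd hx2 (lt_irrefl _)
      · exact absurd hx2 (by rw [(hM0' x hx).2.1]; exact lt_irrefl _)
    · intro x hx hx2
      rw [Finset.mem_insert, Finset.mem_insert, Finset.mem_insert] at hx
      rcases hx with rfl | rfl | rfl | hx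
      · exact absurd hx2 (not_lt.2 hcu.le)
      · exact hhw
      · exact absurd hx2 (lt_irrefl _)
      · exact absurd hx2 (by rw [(hM0' x hx).2.1]; exact lt_irrefl _)
    · intro x hx hx2 hx3
      have hxS : x ∈ S := by
        rw [Finset.mem_insert, Finset.mem_insert, Finset.mem_insert] at hx
        rcases hx with rfl | rfl | rfl | hx
        · exact hu
        · exact hw
        · exact hcB.1
        · exact (hM0' x hx).1
      exact ⟨fun h4 => hx3 (hg x hxS c hcB.1 hx2 h4), fun h4 => hx3 (hh x hxS c hcB.1 hx2 h4)⟩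
  · right
    omega

/-- The step for a type-two level. -/
theorem unav2' {k m : ℕ} (hk : 4 ≤ k) {κ g h : V → ℕ} (hmg : ∀ x, g x < m) (hmh : ∀ x, h x < m)
    (S : Finset V)
    (hg : ∀ x ∈ S, ∀ y ∈ S, κ x = κ y → g x = g y → x = y)
    (hh : ∀ x ∈ S, ∀ y ∈ S, κ x = κ y → h x = h y → x = y) :
    (∃ e ⊆ S, ∃ c, C2 k κ g h e c) ∨
      ∃ S' ⊆ S, Set.InjOn κ S' ∧ S.card ≤ (k - 3) * S'.card + 2 * m := by
  classical
  rcases unav2 hk hmg hmh S hg hh with h1 | h1
  · exact Or.inl h1
  · right
    have hsplit := Finset.card_filter_add_card_filter_not (s := S)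
      (fun c => k - 2 ≤ (S.filter fun x => κ x = κ c).card)
    obtain ⟨S', hS', hI, hcard⟩ := exists_transversal (κ := κ) (a := k - 3)
      (S.filter fun c => ¬ k - 2 ≤ (S.filter fun x => κ x = κ c).card) (by
        intro b hb
        rw [Finset.mem_image] at hb
        obtain ⟨c, hc, rfl⟩ := hb
        rw [Finset.mem_filter] at hc
        have h4 : ((S.filter fun c => ¬ k - 2 ≤ (S.filter fun x => κ x = κ c).card).filter
            fun x => κ x = κ c).card ≤ (S.filter fun x => κ x = κ c).card :=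
          Finset.card_le_card (Finset.filter_subset_filter _ (Finset.filter_subset _ _))
        omega)
    refine ⟨S', hS'.trans (Finset.filter_subset _ _), hI, ?_⟩
    omega

/-- The last level for uniformity four. -/
theorem unav2_final {m : ℕ} {κ g h : V → ℕ} (hmg : ∀ x, g x < m) (hmh : ∀ x, h x < m)
    (S : Finset V) (hκ : ∀ F : Finset V, Set.InjOn κ F → F.card ≤ m)
    (hg : ∀ x ∈ S, ∀ y ∈ S, κ x = κ y → g x = g y → x = y)
    (hh : ∀ x ∈ S, ∀ y ∈ S, κ x = κ y → h x = h y → x = y) (hS : 3 * m < S.card) :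
    ∃ e ⊆ S, ∃ c, C2 4 κ g h e c := by
  classical
  rcases unav2' (k := 4) le_rfl hmg hmh S hg hh with h1 | ⟨S', -, hI, hcard⟩
  · exact h1
  · exfalso
    have := hκ S' hI
    omega

theorem unav3 {m : ℕ} {f0 f1 f2 f3 : V → ℕ} (h0 : ∀ x, f0 x < m) (h1 : ∀ x, f1 x < m)
    (h2 : ∀ x, f2 x < m) (h3 : ∀ x, f3 x < m) (S : Finset V)
    (p01 : ∀ x ∈ S, ∀ y ∈ S, f0 x = f0 y → f1 x = f1 y → x = y)
    (p12 : ∀ x ∈ S, ∀ y ∈ S, f1 x = f1 y → f2 x = f2 y → x = y)
    (p13 : ∀ x ∈ S, ∀ y ∈ S, f1 x = f1 y → f3 x = f3 y → x = y)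
    (p23 : ∀ x ∈ S, ∀ y ∈ S, f2 x = f2 y → f3 x = f3 y → x = y) (hS : 5 * m < S.card) :
    ∃ e ⊆ S, ∃ c, C3 f0 f1 f2 f3 e c := by
  classical
  set B0 := S.filter fun c => ∀ x ∈ S, f0 x = f0 c → f1 x ≤ f1 c with hB0
  set B1 := S.filter fun c => ∀ x ∈ S, f1 x = f1 c → f2 x ≤ f2 c with hB1
  set B2 := S.filter fun c => ∀ x ∈ S, f1 x = f1 c → f2 c ≤ f2 x with hB2
  set B3 := S.filter fun c => ∀ x ∈ S, f2 x = f2 c → f1 c ≤ f1 x with hB3
  set B4 := S.filter fun c => ∀ x ∈ S, f3 x = f3 c → f1 c ≤ f1 x with hB4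
  have c0 : B0.card ≤ m := card_le_of_injOn_lt h0 (fun x hx y hy hxy => by
    rw [hB0, Finset.mem_filter] at hx hy
    exact p01 x hx.1 y hy.1 hxy (le_antisymm (hy.2 x hx.1 hxy) (hx.2 y hy.1 hxy.symm)))
  have c1 : B1.card ≤ m := card_le_of_injOn_lt h1 (fun x hx y hy hxy => by
    rw [hB1, Finset.mem_filter] at hx hy
    exact p12 x hx.1 y hy.1 hxy (le_antisymm (hy.2 x hx.1 hxy) (hx.2 y hy.1 hxy.symm)))
  have c2 : B2.card ≤ m := card_le_of_injOn_lt h1 (fun x hx y hy hxy => by
    rw [hB2, Finset.mem_filter] at hx hy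
    exact p12 x hx.1 y hy.1 hxy (le_antisymm (hx.2 y hy.1 hxy.symm) (hy.2 x hx.1 hxy)))
  have c3 : B3.card ≤ m := card_le_of_injOn_lt h2 (fun x hx y hy hxy => by
    rw [hB3, Finset.mem_filter] at hx hy
    exact p12 x hx.1 y hy.1 (le_antisymm (hx.2 y hy.1 hxy.symm) (hy.2 x hx.1 hxy)) hxy)
  have c4 : B4.card ≤ m := card_le_of_injOn_lt h3 (fun x hx y hy hxy => by
    rw [hB4, Finset.mem_filter] at hx hy
    exact p13 x hx.1 y hy.1 (le_antisymm (hx.2 y hy.1 hxy.symm) (hy.2 x hx.1 hxy)) hxy)
  obtain ⟨c, hcS, hcn⟩ : ∃ c ∈ S, c ∉ B0 ∪ (B1 ∪ (B2 ∪ (B3 ∪ B4))) := by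
    by_contra hcon
    push Not at hcon
    have k1 := (Finset.card_le_card hcon).trans (Finset.card_union_le _ _)
    have k2 := Finset.card_union_le B1 (B2 ∪ (B3 ∪ B4))
    have k3 := Finset.card_union_le B2 (B3 ∪ B4)
    have k4 := Finset.card_union_le B3 B4
    omega
  simp only [Finset.mem_union, not_or] at hcn
  obtain ⟨n0, n1, n2, n3, n4⟩ := hcn
  obtain ⟨r0, hr0, a0, b0⟩ : ∃ x ∈ S, f0 x = f0 c ∧ f1 c < f1 x := by
    by_contra hcon
    push Not at hcon
    exact n0 (by rw [hB0, Finset.mem_filter]; exact ⟨hcS, hcon⟩)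
  obtain ⟨ra, hra, aa, ba⟩ : ∃ x ∈ S, f1 x = f1 c ∧ f2 c < f2 x := by
    by_contra hcon
    push Not at hcon
    exact n1 (by rw [hB1, Finset.mem_filter]; exact ⟨hcS, hcon⟩)
  obtain ⟨rb, hrb, ab, bb⟩ : ∃ x ∈ S, f1 x = f1 c ∧ f2 x < f2 c := by
    by_contra hcon
    push Not at hcon
    exact n2 (by rw [hB2, Finset.mem_filter]; exact ⟨hcS, hcon⟩)
  obtain ⟨r2, hr2, a2, b2⟩ : ∃ x ∈ S, f2 x = f2 c ∧ f1 x < f1 c := by
    by_contra hcon
    push Not at hcon
    exact n3 (by rw [hB3, Finset.mem_filter]; exact ⟨hcS, hcon⟩)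
  obtain ⟨r3, hr3, a3, b3⟩ : ∃ x ∈ S, f3 x = f3 c ∧ f1 x < f1 c := by
    by_contra hcon
    push Not at hcon
    exact n4 (by rw [hB4, Finset.mem_filter]; exact ⟨hcS, hcon⟩)
  have h23 : f2 r3 ≠ f2 c := by
    intro h4
    have := p23 r3 hr3 c hcS h4 a3
    rw [this] at b3
    exact lt_irrefl _ b3
  obtain ⟨r1, hr1, a1, bt⟩ : ∃ x ∈ S, f1 x = f1 c ∧ Btw (f2 x) (f2 c) (f2 r3) := by
    rcases lt_or_gt_of_ne h23 with h4 | h4
    · exact ⟨ra, hra, aa, Or.inr ⟨h4, ba⟩⟩
    · exact ⟨rb, hrb, ab, Or.inl ⟨bb, h4⟩⟩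
  have hr1c : r1 ≠ c := by
    rintro rfl
    unfold Btw at bt
    omega
  have h01 : f0 r1 ≠ f0 c := fun h4 => hr1c (p01 r1 hr1 c hcS h4 a1)
  have hr23 : r2 ≠ r3 := by
    rintro rfl
    exact h23 a2
  have d1 : r3 ∉ ({r2} : Finset V) := by
    rw [Finset.mem_singleton]; exact hr23.symm
  have d2 : r0 ∉ ({r3, r2} : Finset V) := by
    simp only [Finset.mem_insert, Finset.mem_singleton]
    rintro (rfl | rfl) <;> omega
  have d3 : r1 ∉ ({r0, r3, r2} : Finset V) := by
    simp only [Finset.mem_insert, Finset.mem_singleton]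
    rintro (rfl | rfl | rfl) <;> omega
  have d4 : c ∉ ({r1, r0, r3, r2} : Finset V) := by
    simp only [Finset.mem_insert, Finset.mem_singleton]
    rintro (h4 | h4 | h4 | h4)
    · exact hr1c h4.symm
    · rw [← h4] at b0; omega
    · rw [← h4] at b3; omega
    · rw [← h4] at b2; omega
  refine ⟨{c, r1, r0, r3, r2}, ?_, c, ?_, ?_, ?_, ?_, ?_, r1, ?_, r2, ?_, r3, ?_, hr1c, a1, h01,
    b2, b3, hr23, a2, a3, bt⟩
  · intro x hx
    simp only [Finset.mem_insert, Finset.mem_singleton] at hx
    rcases hx with rfl | rfl | rfl | rfl | rfl <;> assumption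
  · simp
  · rw [Finset.card_insert_of_notMem d4, Finset.card_insert_of_notMem d3,
      Finset.card_insert_of_notMem d2, Finset.card_insert_of_notMem d1, Finset.card_singleton]
  · have : ({c, r1, r0, r3, r2} : Finset V).filter (fun x => f1 x = f1 c) = {c, r1} := by
      ext x
      simp only [Finset.mem_filter, Finset.mem_insert, Finset.mem_singleton]
      constructor
      · rintro ⟨rfl | rfl | rfl | rfl | rfl, h4⟩
        · exact Or.inl rfl
        · exact Or.inr rfl
        · omega
        · omega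
        · omega
      · rintro (rfl | rfl)
        · exact ⟨Or.inl rfl, rfl⟩
        · exact ⟨Or.inr (Or.inl rfl), a1⟩
    rw [this, Finset.card_pair hr1c.symm]
  · have : ({c, r1, r0, r3, r2} : Finset V).filter (fun x => f1 c < f1 x) = {r0} := by
      ext x
      simp only [Finset.mem_filter, Finset.mem_insert, Finset.mem_singleton]
      constructor
      · rintro ⟨rfl | rfl | rfl | rfl | rfl, h4⟩
        · omega
        · omega
        · rfl
        · omega
        · omega
      · rintro rfl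
        exact ⟨Or.inr (Or.inr (Or.inl rfl)), b0⟩
    rw [this, Finset.card_singleton]
  · intro x hx hx2
    simp only [Finset.mem_insert, Finset.mem_singleton] at hx
    rcases hx with rfl | rfl | rfl | rfl | rfl
    · exact absurd hx2 (lt_irrefl _)
    · omega
    · exact a0
    · omega
    · omega
  · simp
  · simp
  · simp

end Pool.Agent.Lib.MP_8cf036_co_h19
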